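import Pool.Agent.Helper2.LD.St1

/-!
# LD project (MP_e47d5b_lc): module Hom
-/

set_option autoImplicit false

namespace Pool.Agent.Helper51.LD

open Pool.Agent.Helper2.LD

/-- The facts of `StD12` for one graph. -/
private structure DD {X : Type} (P : SimpleGraph X) (L : ℕ) : Prop where
  ex : ∀ z x (d : ℕ), P.edist z x = ((d + 1 : ℕ) : ℕ∞) → 2 * (d + 1) ≤ L →
      ∃! w, P.Adj z w ∧ P.edist w x = (d : ℕ∞)
  nb : ∀ z x w (d : ℕ), P.edist z x = (d : ℕ∞) → P.Adj z w →
      P.edist w x = ((d + 1 : ℕ) : ℕ∞) ∨ ∃ d', d = d' + 1 ∧ P.edist w x = (d' : ℕ∞)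
  tr : ∀ z x y w w' (a b c : ℕ), P.edist z x = ((a + 1 : ℕ) : ℕ∞) →
      P.edist z y = ((b + 1 : ℕ) : ℕ∞) → P.edist x y = (c : ℕ∞) →
      P.Adj z w → P.edist w x = (a : ℕ∞) → P.Adj z w' → P.edist w' y = (b : ℕ∞) →
      a + b + 2 + c ≤ L → (w = w' ↔ c < a + b + 2)

private theorem natne {a b : ℕ} (h : (a : ℕ∞) = (b : ℕ∞)) : a = b := by exact_mod_cast h

private theorem transfer {X X' : Type} {P : SimpleGraph X} {P' : SimpleGraph X'} {L : ℕ}
    (hD : DD P L) (hD' : DD P' L) {u v xj xi : X} {y y' xj' xi' : X'} {a d c : ℕ}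
    (huv : P.Adj u v) (hyy : P'.Adj y y')
    (h1 : P.edist u xj = ((a + 1 : ℕ) : ℕ∞)) (h2 : P.edist v xj = (a : ℕ∞))
    (h1' : P'.edist y xj' = ((a + 1 : ℕ) : ℕ∞)) (h2' : P'.edist y' xj' = (a : ℕ∞))
    (h3 : P.edist u xi = (d : ℕ∞)) (h3' : P'.edist y xi' = (d : ℕ∞))
    (h4 : P.edist xj xi = (c : ℕ∞)) (h4' : P'.edist xj' xi' = (c : ℕ∞))
    (hL : a + 1 + d + c ≤ L) (hL2 : 2 * d ≤ L) : P.edist v xi = P'.edist y' xi' := by
  rcases hD.nb u xi v d h3 huv with hu | ⟨d', hd', hu⟩
  · rcases hD'.nb y xi' y' d h3' hyy with hy | ⟨d'', hd'', hy⟩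
    · rw [hu, hy]
    · exfalso
      subst hd''
      have hc : c < a + d'' + 2 :=
        (hD'.tr y xj' xi' y' y' a d'' c h1' h3' h4' hyy h2' hyy hy (by omega)).1 rfl
      obtain ⟨w, ⟨hw1, hw2⟩, _⟩ := hD.ex u xi d'' h3 hL2
      have hvw : v = w :=
        (hD.tr u xj xi v w a d'' c h1 h3 h4 huv h2 hw1 hw2 (by omega)).2 hc
      subst hvw
      rw [hu] at hw2
      have := natne hw2
      omega
  · rcases hD'.nb y xi' y' d h3' hyy with hy | ⟨d'', hd'', hy⟩
    · exfalso
      subst hd'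
      have hc : c < a + d' + 2 :=
        (hD.tr u xj xi v v a d' c h1 h3 h4 huv h2 huv hu (by omega)).1 rfl
      obtain ⟨w, ⟨hw1, hw2⟩, _⟩ := hD'.ex y xi' d' h3' hL2
      have hvw : y' = w :=
        (hD'.tr y xj' xi' y' w a d' c h1' h3' h4' hyy h2' hw1 hw2 (by omega)).2 hc
      subst hvw
      rw [hy] at hw2
      have := natne hw2
      omega
    · have : d' = d'' := by omega
      rw [hu, hy, this]

section Height

variable {X : Type} {P : SimpleGraph X} {ht : X → ℕ} {k : ℕ}

private theorem adj_ht (hP : PL P ht k) {a b : X} (h : P.Adj a b) :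
    ht a ≤ ht b + 1 ∧ ht b ≤ ht a + 1 := by
  rcases hP.adj a b h with h | h | ⟨h, h'⟩ <;> omega

private theorem lip (hP : PL P ht k) {a b : X} (w : P.Walk a b) : ht a ≤ ht b + w.length := by
  induction w with
  | nil => simp
  | cons h p ih =>
    have := adj_ht hP h
    simp only [SimpleGraph.Walk.length_cons]
    omega

private theorem lip' (hP : PL P ht k) {a b : X} {d : ℕ} (h : P.edist a b = (d : ℕ∞)) :
    ht a ≤ ht b + d := by
  obtain ⟨w, hw⟩ := SimpleGraph.exists_walk_of_edist_eq_coe h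
  have := lip hP w
  omega

private theorem down_fwd (hP : PL P ht k) (hD : DD P (3 * NN k)) (x : X) :
    ∀ (d : ℕ) (u w : X), P.Adj u w → P.edist u x = ((d + 1 : ℕ) : ℕ∞) →
      P.edist w x = (d : ℕ∞) → 2 * (d + 1) ≤ 3 * NN k → ht w + 1 = ht u →
      ht x + (d + 1) = ht u := by
  intro d
  induction d with
  | zero =>
    intro u w _ _ hwx _ hh
    rw [Nat.cast_zero] at hwx
    have : w = x := SimpleGraph.edist_eq_zero_iff.1 hwx
    subst this
    omega
  | succ d ih =>
    intro u w huw hux hwx hL hh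
    obtain ⟨w1, ⟨hw1, hw1x⟩, _⟩ := hD.ex w x d hwx (by omega)
    have hle := hP.le u
    rcases hP.adj w w1 hw1 with h | h | ⟨h, _⟩
    · have := ih w w1 hw1 hwx hw1x (by omega) (by omega)
      omega
    · exfalso
      obtain ⟨y, _, hy2⟩ := hP.up w (by omega)
      have e1 : u = y := hy2 u ⟨huw.symm, by omega⟩
      have e2 : w1 = y := hy2 w1 ⟨hw1, h⟩
      have e3 : u = w1 := e1.trans e2.symm
      subst e3
      rw [hux] at hw1x
      have := natne hw1x
      omega
    · omega

private theorem down_iff (hP : PL P ht k) (hD : DD P (3 * NN k)) {x u w : X} {d : ℕ}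
    (huw : P.Adj u w) (hux : P.edist u x = ((d + 1 : ℕ) : ℕ∞))
    (hwx : P.edist w x = (d : ℕ∞)) (hL : 2 * (d + 1) ≤ 3 * NN k) :
    ht w + 1 = ht u ↔ ht x + (d + 1) = ht u := by
  constructor
  · exact down_fwd hP hD x d u w huw hux hwx hL
  · intro h
    have h1 := lip' hP hwx
    have h2 := adj_ht hP huw
    omega

end Height

/-- All data of the construction. -/
private structure Ctx {X X' : Type} (P : SimpleGraph X) (ht : X → ℕ) (P' : SimpleGraph X')
    (ht' : X' → ℕ) (k D M : ℕ) (p : List (X × X' × ℕ)) (I J : X × X' × ℕ → Prop) (z : ℕ → X)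
    (i0 : X × X' × ℕ) : Prop where
  hP : PL P ht k
  hP' : PL P' ht' k
  hD : DD P (3 * NN k)
  hD' : DD P' (3 * NN k)
  hDN : 2 * D ≤ NN k
  hMD : M ≤ D
  hN : 2 * NN k ≤ HH k
  plen : p.length ≤ k
  adjz : ∀ t < M, P.Adj (z t) (z (t + 1))
  hi0 : I i0
  IJ : ∀ i, I i → J i
  Jp : ∀ i, J i → i ∈ p
  b0 : ∀ t ≤ M, P.edist (z t) i0.1 ≤ ((t : ℕ) : ℕ∞)
  bI : ∀ j, I j → ∀ t ≤ M, ∃ d : ℕ, P.edist (z t) j.1 = (d : ℕ∞) ∧ d ≤ (M - t) + D
  bJ : ∀ i, J i → ∀ t ≤ M, ∃ d : ℕ, P.edist (z t) i.1 = (d : ℕ∞) ∧ d ≤ t + 2 * D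
  cc : ∀ i, J i → ∀ j, I j → ∃ c : ℕ, c ≤ 2 * D ∧ P.edist j.1 i.1 = (c : ℕ∞) ∧
    P'.edist j.2.1 i.2.1 = (c : ℕ∞)
  hts : ∀ i, J i → min (ht i.1) (2 * D) = min (ht' i.2.1) (2 * D)
  ne2 : ∀ t, t + 2 ≤ M → z (t + 2) ≠ z t

section Steps

variable {X X' : Type} {P : SimpleGraph X} {ht : X → ℕ} {P' : SimpleGraph X'}
  {ht' : X' → ℕ} {k D M : ℕ} {p : List (X × X' × ℕ)} {I J : X × X' × ℕ → Prop} {z : ℕ → X}
  {i0 : X × X' × ℕ}

private def S1 (P : SimpleGraph X) (ht : X → ℕ) (P' : SimpleGraph X')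
    (ht' : X' → ℕ) (D : ℕ) (J : X × X' × ℕ → Prop) (z : ℕ → X) (t : ℕ) (y : X') : Prop :=
  min (ht (z t)) (2 * D - t) = min (ht' y) (2 * D - t) ∧
    ∀ i, J i → P.edist (z t) i.1 = P'.edist y i.2.1

private def S2 (P : SimpleGraph X) (ht : X → ℕ) (P' : SimpleGraph X')
    (ht' : X' → ℕ) (D : ℕ) (I J : X × X' × ℕ → Prop) (z : ℕ → X) (t : ℕ) (y : X') : Prop :=
  min (ht (z (t + 1))) (2 * D - (t + 1)) = min (ht' y) (2 * D - (t + 1)) ∧
    (∀ j, I j → P.edist (z (t + 1)) j.1 = P'.edist y j.2.1) ∧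
    (∀ i, J i → P.edist (z (t + 1)) i.1 ≤ P'.edist y i.2.1) ∧
    (∀ j, I j → ∃ d : ℕ, P.edist (z t) j.1 = (d : ℕ∞) ∧
      P.edist (z (t + 1)) j.1 = ((d + 1 : ℕ) : ℕ∞)) ∧
    (2 * D - (t + 1) ≤ ht (z (t + 1)) ∨ ht (z t) = ht (z (t + 1)) + 1)

/-- The fresh down step. -/
private theorem stepC (c : Ctx P ht P' ht' k D M p I J z i0) {t : ℕ} (htM : t < M) {y : X'}
    (hH : min (ht (z t)) (2 * D - t) = min (ht' y) (2 * D - t))
    (hA : ∀ j, I j → P.edist (z t) j.1 = P'.edist y j.2.1)
    (hB : ∀ i, J i → P.edist (z t) i.1 ≤ P'.edist y i.2.1)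
    (hn : ∀ j, I j → ∃ d : ℕ, P.edist (z t) j.1 = (d : ℕ∞) ∧
      P.edist (z (t + 1)) j.1 = ((d + 1 : ℕ) : ℕ∞))
    (hh : 2 * D - t ≤ ht (z t) ∨ ht (z (t + 1)) + 1 = ht (z t)) :
    ∃ y', S2 P ht P' ht' D I J z t y' := by
  classical
  have hMD := c.hMD
  have hDN := c.hDN
  have hy1 : 0 < ht' y := by
    rcases hh with h | h
    · have : min (ht (z t)) (2 * D - t) = 2 * D - t := min_eq_right h
      rw [this] at hH
      have := min_le_left (ht' y) (2 * D - t)
      omega
    · by_contra hc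
      have h0 : ht' y = 0 := by omega
      rw [h0] at hH
      have h2 : 0 < 2 * D - t := by omega
      have : min 0 (2 * D - t) = 0 := by simp
      rw [this] at hH
      have h3 : 0 < min (ht (z t)) (2 * D - t) := lt_min (by omega) h2
      omega
  obtain ⟨s, hs, hsy⟩ := c.hP'.down y hy1
  let f : X × X' × ℕ → X' := fun i =>
    if h : ∃ w, P'.Adj y w ∧ ∃ e : ℕ, P'.edist y i.2.1 = ((e + 1 : ℕ) : ℕ∞) ∧
      P'.edist w i.2.1 = (e : ℕ∞) then h.choose else y
  have hcard : ((p.map f).toFinset).card < s.card := by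
    have h1 := List.toFinset_card_le (p.map f)
    rw [List.length_map] at h1
    have := c.plen
    omega
  obtain ⟨y', hy's, hy'b⟩ := Finset.exists_mem_notMem_of_card_lt_card hcard
  obtain ⟨hyy, hyh⟩ := hsy y' hy's
  -- the distances to the marks increase
  have hup : ∀ i, J i → ∃ d : ℕ, P'.edist y i.2.1 = (d : ℕ∞) ∧
      P'.edist y' i.2.1 = ((d + 1 : ℕ) : ℕ∞) := by
    intro i hi
    obtain ⟨c0, hc0, _, hc0'⟩ := c.cc i hi i0 c.hi0
    have h1 : P'.edist y i.2.1 ≤ ((t + 2 * D : ℕ) : ℕ∞) := by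
      calc P'.edist y i.2.1 ≤ P'.edist y i0.2.1 + P'.edist i0.2.1 i.2.1 :=
            P'.edist_triangle
        _ ≤ (t : ℕ∞) + ((2 * D : ℕ) : ℕ∞) := by
            refine add_le_add ?_ ?_
            · rw [← hA i0 c.hi0]
              exact c.b0 t htM.le
            · rw [hc0']
              exact_mod_cast hc0
        _ = ((t + 2 * D : ℕ) : ℕ∞) := by push_cast; rfl
    obtain ⟨d, hd, hdle⟩ := ENat.le_natCast_iff.1 h1
    refine ⟨d, hd, ?_⟩
    rcases c.hD'.nb y i.2.1 y' d hd hyy with h | ⟨d', hd', h⟩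
    · exact h
    · exfalso
      apply hy'b
      rw [List.mem_toFinset, List.mem_map]
      refine ⟨i, c.Jp i hi, ?_⟩
      have hex : ∃ w, P'.Adj y w ∧ ∃ e : ℕ, P'.edist y i.2.1 = ((e + 1 : ℕ) : ℕ∞) ∧
          P'.edist w i.2.1 = (e : ℕ∞) := ⟨y', hyy, d', by rw [hd, hd'], h⟩
      have hf : f i = hex.choose := by
        simp only [f]
        rw [dif_pos hex]
      obtain ⟨hw1, e, he1, he2⟩ := hex.choose_spec
      rw [hf]
      subst hd'
      have hee : e = d' := by
        rw [hd] at he1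
        have := natne he1
        omega
      subst hee
      obtain ⟨w0, _, hw0⟩ := c.hD'.ex y i.2.1 e hd (by omega)
      exact (hw0 _ ⟨hw1, he2⟩).trans (hw0 _ ⟨hyy, h⟩).symm
  refine ⟨y', ?_, ?_, ?_, hn, ?_⟩
  · have hadj := adj_ht c.hP (c.adjz t htM)
    rcases hh with h | h
    · have h0 : min (ht (z t)) (2 * D - t) = 2 * D - t := min_eq_right h
      rw [h0] at hH
      have h1 := min_le_left (ht' y) (2 * D - t)
      rw [min_eq_right (by omega), min_eq_right (by omega)]
    · by_cases h2 : 2 * D - t ≤ ht (z t)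
      · have h0 : min (ht (z t)) (2 * D - t) = 2 * D - t := min_eq_right h2
        rw [h0] at hH
        have h1 := min_le_left (ht' y) (2 * D - t)
        rw [min_eq_right (by omega), min_eq_right (by omega)]
      · have h0 : min (ht (z t)) (2 * D - t) = ht (z t) := min_eq_left (by omega)
        rw [h0] at hH
        have h1 : ht' y = ht (z t) := by
          rcases le_total (ht' y) (2 * D - t) with h3 | h3
          · rw [min_eq_left h3] at hH
            exact hH.symm
          · rw [min_eq_right h3] at hH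
            omega
        have : ht' y' = ht (z (t + 1)) := by omega
        rw [this]
  · intro j hj
    obtain ⟨d, hd, hd'⟩ := hn j hj
    obtain ⟨e, he, he'⟩ := hup j (c.IJ j hj)
    have h1 := hA j hj
    rw [hd, he] at h1
    have := natne h1
    subst this
    rw [hd', he']
  · intro i hi
    obtain ⟨e, he, he'⟩ := hup i hi
    obtain ⟨d, hd, _⟩ := c.bJ i hi t htM.le
    have h1 := hB i hi
    rw [hd, he] at h1
    have h2 : d ≤ e := by exact_mod_cast h1
    rw [he']
    rcases c.hD.nb (z t) i.1 (z (t + 1)) d hd (c.adjz t htM) with h | ⟨d', hd', h⟩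
    · rw [h]
      exact_mod_cast (by omega : d + 1 ≤ e + 1)
    · rw [h]
      exact_mod_cast (by omega : d' ≤ e + 1)
  · have hadj := adj_ht c.hP (c.adjz t htM)
    rcases hh with h | h
    · left; omega
    · right; exact h.symm

private theorem step1 (c : Ctx P ht P' ht' k D M p I J z i0) {t : ℕ} (htM : t < M) {y : X'}
    (h : S1 P ht P' ht' D J z t y) :
    (∃ y', S1 P ht P' ht' D J z (t + 1) y') ∨ ∃ y', S2 P ht P' ht' D I J z t y' := by
  obtain ⟨hH, hB⟩ := h
  have hMD := c.hMD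
  have hDN := c.hDN
  have hN := c.hN
  have huv := c.adjz t htM
  have hadj := adj_ht c.hP huv
  -- small heights agree
  have hsmall : ht (z t) < 2 * D - t → ht' y = ht (z t) := by
    intro h2
    have h0 : min (ht (z t)) (2 * D - t) = ht (z t) := min_eq_left (by omega)
    rw [h0] at hH
    rcases le_total (ht' y) (2 * D - t) with h3 | h3
    · rw [min_eq_left h3] at hH
      exact hH.symm
    · rw [min_eq_right h3] at hH
      omega
  have hbig : 2 * D - t ≤ ht (z t) → 2 * D - t ≤ ht' y := by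
    intro h2
    have h0 : min (ht (z t)) (2 * D - t) = 2 * D - t := min_eq_right h2
    rw [h0] at hH
    have := min_le_left (ht' y) (2 * D - t)
    omega
  -- status of a mark
  have hstat : ∀ i, J i → ∀ d : ℕ, d ≤ 2 * D + t → ht (z t) < 2 * D - t →
      (ht i.1 + d = ht (z t) ↔ ht' i.2.1 + d = ht (z t)) := by
    intro i hi d _ h2
    have h1 := c.hts i hi
    constructor
    · intro h3
      rw [min_eq_left (by omega : ht i.1 ≤ 2 * D)] at h1
      rcases le_total (ht' i.2.1) (2 * D) with h4 | h4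
      · rw [min_eq_left h4] at h1; omega
      · rw [min_eq_right h4] at h1; omega
    · intro h3
      rw [min_eq_left (by omega : ht' i.2.1 ≤ 2 * D)] at h1
      rcases le_total (ht i.1) (2 * D) with h4 | h4
      · rw [min_eq_left h4] at h1; omega
      · rw [min_eq_right h4] at h1; omega
  by_cases hb : ht (z t) < 2 * D - t ∧ ht (z (t + 1)) = ht (z t) + 1
  · -- the up step
    left
    obtain ⟨hb1, hb2⟩ := hb
    have hyt := hsmall hb1
    obtain ⟨y', ⟨hy'1, hy'2⟩, hy'3⟩ := c.hP'.up y (by omega)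
    obtain ⟨v0, _, hv0⟩ := c.hP.up (z t) (by omega)
    refine ⟨y', ?_, ?_⟩
    · have : ht' y' = ht (z (t + 1)) := by omega
      rw [this]
    · intro i hi
      obtain ⟨d, hd, hdle⟩ := c.bJ i hi t htM.le
      have hd' : P'.edist y i.2.1 = (d : ℕ∞) := by rw [← hB i hi, hd]
      rcases c.hD.nb (z t) i.1 (z (t + 1)) d hd huv with h1 | ⟨d1, hd1, h1⟩
      · rcases c.hD'.nb y i.2.1 y' d hd' hy'1 with h2 | ⟨d2, hd2, h2⟩
        · rw [h1, h2]
        · exfalso
          subst hd2
          have s1 := down_iff c.hP' c.hD' hy'1 hd' h2 (by omega)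
          have s2 : ¬ (ht' i.2.1 + (d2 + 1) = ht' y) := fun h => by
            have := s1.2 h; omega
          obtain ⟨w, ⟨hw1, hw2⟩, _⟩ := c.hD.ex (z t) i.1 d2 hd (by omega)
          have s3 := down_iff c.hP c.hD hw1 hd hw2 (by omega)
          have s4 := hstat i hi (d2 + 1) (by omega) hb1
          have s5 : ¬ (ht w + 1 = ht (z t)) := fun h => s2 (by rw [hyt]; exact s4.1 (s3.1 h))
          have s6 : ht w = ht (z t) + 1 := by
            rcases c.hP.adj (z t) w hw1 with h | h | ⟨h, _⟩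
            · exact absurd h.symm s5
            · exact h
            · omega
          have s7 : w = z (t + 1) := (hv0 w ⟨hw1, s6⟩).trans (hv0 _ ⟨huv, hb2⟩).symm
          rw [s7, h1] at hw2
          have := natne hw2
          omega
      · rcases c.hD'.nb y i.2.1 y' d hd' hy'1 with h2 | ⟨d2, hd2, h2⟩
        · exfalso
          subst hd1
          have s1 := down_iff c.hP c.hD huv hd h1 (by omega)
          have s2 : ¬ (ht i.1 + (d1 + 1) = ht (z t)) := fun h => by
            have := s1.2 h; omega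
          obtain ⟨w, ⟨hw1, hw2⟩, _⟩ := c.hD'.ex y i.2.1 d1 hd' (by omega)
          have s3 := down_iff c.hP' c.hD' hw1 hd' hw2 (by omega)
          have s4 := hstat i hi (d1 + 1) (by omega) hb1
          have s5 : ¬ (ht' w + 1 = ht' y) := fun h =>
            s2 (s4.2 (by have := s3.1 h; omega))
          have s6 : ht' w = ht' y + 1 := by
            rcases c.hP'.adj y w hw1 with h | h | ⟨h, _⟩
            · exact absurd h.symm s5
            · exact h
            · omega
          have s7 : w = y' := (hy'3 w ⟨hw1, s6⟩)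
          rw [s7, h2] at hw2
          have := natne hw2
          omega
        · have : d1 = d2 := by omega
          rw [h1, h2, this]
  · by_cases ha : ∃ j, I j ∧ ∃ a : ℕ, P.edist (z t) j.1 = ((a + 1 : ℕ) : ℕ∞) ∧
        P.edist (z (t + 1)) j.1 = (a : ℕ∞)
    · -- along the direction of a mark
      left
      obtain ⟨j, hj, a, ha1, ha2⟩ := ha
      obtain ⟨d0, hd0, hd0le⟩ := c.bI j hj t htM.le
      have hd0a : d0 = a + 1 := by
        rw [ha1] at hd0
        exact (natne hd0).symm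
      have ha1' : P'.edist y j.2.1 = ((a + 1 : ℕ) : ℕ∞) := by rw [← hB j (c.IJ j hj), ha1]
      obtain ⟨y', ⟨hy'1, hy'2⟩, _⟩ := c.hD'.ex y j.2.1 a ha1' (by omega)
      refine ⟨y', ?_, ?_⟩
      · have hadj' := adj_ht c.hP' hy'1
        by_cases h2 : 2 * D - t ≤ ht (z t)
        · have := hbig h2
          rw [min_eq_right (by omega), min_eq_right (by omega)]
        · have hyt := hsmall (by omega)
          have s1 := down_iff c.hP c.hD huv ha1 ha2 (by omega)
          have s2 := down_iff c.hP' c.hD' hy'1 ha1' hy'2 (by omega)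
          have s3 := hstat j (c.IJ j hj) (a + 1) (by omega) (by omega)
          have s4 : ht' y' = ht (z (t + 1)) := by
            by_cases h3 : ht (z (t + 1)) + 1 = ht (z t)
            · have : ht' y' + 1 = ht' y := s2.2 (by rw [hyt]; exact s3.1 (s1.1 h3))
              omega
            · have h4 : ¬ (ht' y' + 1 = ht' y) := fun h =>
                h3 (s1.2 (s3.2 (by have := s2.1 h; omega)))
              have h5 : ht (z (t + 1)) = ht (z t) + 1 := by
                rcases c.hP.adj _ _ huv with h | h | ⟨h, _⟩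
                · exact absurd h.symm h3
                · exact h
                · omega
              have h6 : ht' y' = ht' y + 1 := by
                rcases c.hP'.adj _ _ hy'1 with h | h | ⟨h, _⟩
                · exact absurd h.symm h4
                · exact h
                · omega
              omega
          rw [s4]
      · intro i hi
        obtain ⟨d, hd, hdle⟩ := c.bJ i hi t htM.le
        have hd' : P'.edist y i.2.1 = (d : ℕ∞) := by rw [← hB i hi, hd]
        obtain ⟨c0, hc0, hc1, hc2⟩ := c.cc i hi j hj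
        exact transfer c.hD c.hD' huv hy'1 ha1 ha2 ha1' hy'2 hd hd' hc1 hc2 (by omega) (by omega)
    · -- the fresh step
      right
      refine stepC c htM hH (fun j hj => hB j (c.IJ j hj)) (fun i hi => (hB i hi).le) ?_ ?_
      · intro j hj
        obtain ⟨d, hd, _⟩ := c.bI j hj t htM.le
        rcases c.hD.nb (z t) j.1 (z (t + 1)) d hd huv with h1 | ⟨d1, hd1, h1⟩
        · exact ⟨d, hd, h1⟩
        · exact absurd ⟨j, hj, d1, by rw [hd, hd1], h1⟩ ha
      · by_cases h2 : 2 * D - t ≤ ht (z t)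
        · exact Or.inl h2
        · right
          rcases c.hP.adj _ _ huv with h | h | ⟨h, _⟩
          · exact h.symm
          · exact absurd ⟨by omega, h⟩ hb
          · omega

private theorem step2 (c : Ctx P ht P' ht' k D M p I J z i0) {t : ℕ} (htM : t + 1 < M) {y : X'}
    (h : S2 P ht P' ht' D I J z t y) : ∃ y', S2 P ht P' ht' D I J z (t + 1) y' := by
  obtain ⟨hH, hA, hB, hn, hh⟩ := h
  have hMD := c.hMD
  have hDN := c.hDN
  have hN := c.hN
  have huv := c.adjz (t + 1) htM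
  have huv0 := c.adjz t (by omega)
  have hne := c.ne2 t (by omega)
  refine stepC c htM hH hA hB ?_ ?_
  · intro j hj
    obtain ⟨d, hd1, hd2⟩ := hn j hj
    refine ⟨d + 1, hd2, ?_⟩
    rcases c.hD.nb (z (t + 1)) j.1 (z (t + 1 + 1)) (d + 1) hd2 huv with h1 | ⟨d1, hd1', h1⟩
    · exact h1
    · exfalso
      have : d1 = d := by omega
      subst this
      obtain ⟨d0, hd0, hd0le⟩ := c.bI j hj (t + 1) htM.le
      have hd0a : d0 = d1 + 1 := by
        rw [hd2] at hd0
        exact (natne hd0).symm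
      obtain ⟨w, _, hw⟩ := c.hD.ex (z (t + 1)) j.1 d1 hd2 (by omega)
      exact hne ((hw _ ⟨huv, h1⟩).trans (hw _ ⟨huv0.symm, hd1⟩).symm)
  · by_cases h2 : 2 * D - (t + 1) ≤ ht (z (t + 1))
    · exact Or.inl h2
    · right
      have h3 : ht (z t) = ht (z (t + 1)) + 1 := by
        rcases hh with h | h
        · exact absurd h h2
        · exact h
      rcases c.hP.adj _ _ huv with h | h | ⟨h, _⟩
      · exact h.symm
      · exfalso
        obtain ⟨w, _, hw⟩ := c.hP.up (z (t + 1)) (by omega)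
        exact hne ((hw _ ⟨huv, h⟩).trans (hw _ ⟨huv0.symm, h3⟩).symm)
      · omega

private theorem run (c : Ctx P ht P' ht' k D M p I J z i0) (y0 : X')
    (h0 : S1 P ht P' ht' D J z 0 y0) : ∀ t ≤ M, (∃ y, S1 P ht P' ht' D J z t y) ∨
      ∃ s y, t = s + 1 ∧ S2 P ht P' ht' D I J z s y := by
  intro t
  induction t with
  | zero => intro _; exact Or.inl ⟨y0, h0⟩
  | succ t ih =>
    intro ht1
    rcases ih (by omega) with ⟨y, hy⟩ | ⟨s, y, hs, hy⟩
    · rcases step1 c (by omega : t < M) hy with h | ⟨y', h⟩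
      · exact Or.inl h
      · exact Or.inr ⟨t, y', rfl, h⟩
    · subst hs
      obtain ⟨y', h⟩ := step2 c (by omega : s + 1 < M) hy
      exact Or.inr ⟨s + 1, y', rfl, h⟩

/-- The result of the construction. -/
private theorem run_end (c : Ctx P ht P' ht' k D M p I J z i0) (y0 : X')
    (h0 : S1 P ht P' ht' D J z 0 y0) : ∃ y, min (ht (z M)) D = min (ht' y) D ∧
      (∀ j, I j → P.edist (z M) j.1 = P'.edist y j.2.1) ∧
      (∀ i, J i → P.edist (z M) i.1 ≤ P'.edist y i.2.1) := by
  have hMD := c.hMD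
  have key : ∀ a b : ℕ, min a (2 * D - M) = min b (2 * D - M) → min a D = min b D := by
    intro a b h
    rcases le_total a (2 * D - M) with h1 | h1 <;> rcases le_total b (2 * D - M) with h2 | h2
    · rw [min_eq_left h1, min_eq_left h2] at h; rw [h]
    · rw [min_eq_left h1, min_eq_right h2] at h
      rw [min_eq_right (by omega), min_eq_right (by omega)]
    · rw [min_eq_right h1, min_eq_left h2] at h
      rw [min_eq_right (by omega), min_eq_right (by omega)]
    · rw [min_eq_right (by omega), min_eq_right (by omega)]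
  rcases run c y0 h0 M le_rfl with ⟨y, hy1, hy2⟩ | ⟨s, y, hs, hy1, hy2, hy3, _⟩
  · exact ⟨y, key _ _ hy1, fun j hj => hy2 j (c.IJ j hj), fun i hi => (hy2 i hi).le⟩
  · subst hs
    exact ⟨y, key _ _ hy1, hy2, hy3⟩

end Steps

/-- Geodesics as sequences. -/
private theorem geo {X : Type} (P : SimpleGraph X) {a x : X} {M : ℕ}
    (h : P.edist a x = (M : ℕ∞)) : ∃ z : ℕ → X, z 0 = a ∧ z M = x ∧
      (∀ t < M, P.Adj (z t) (z (t + 1))) ∧
      (∀ t ≤ M, P.edist (z t) a ≤ ((t : ℕ) : ℕ∞)) ∧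
      (∀ t ≤ M, P.edist (z t) x ≤ ((M - t : ℕ) : ℕ∞)) := by
  obtain ⟨w, hw⟩ := SimpleGraph.exists_walk_of_edist_eq_coe h
  have hadj : ∀ t < M, P.Adj (w.getVert t) (w.getVert (t + 1)) := fun t ht =>
    w.adj_getVert_succ (by omega)
  refine ⟨w.getVert, by simp, ?_, hadj, ?_, ?_⟩
  · rw [← hw]; exact w.getVert_length
  · intro t
    induction t with
    | zero => intro _; simp
    | succ t ih =>
      intro ht
      calc P.edist (w.getVert (t + 1)) a
          ≤ P.edist (w.getVert (t + 1)) (w.getVert t) + P.edist (w.getVert t) a :=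
            P.edist_triangle
        _ ≤ 1 + (t : ℕ∞) := by
            refine add_le_add ?_ (ih (by omega))
            exact (SimpleGraph.edist_eq_one_iff_adj.2 (hadj t (by omega)).symm).le
        _ = ((t + 1 : ℕ) : ℕ∞) := by push_cast; rw [add_comm]
  · have hx : w.getVert M = x := by rw [← hw]; exact w.getVert_length
    have key : ∀ s ≤ M, P.edist (w.getVert (M - s)) x ≤ ((s : ℕ) : ℕ∞) := by
      intro s
      induction s with
      | zero => intro _; simp [hx]
      | succ s ih =>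
        intro hs
        have h1 := hadj (M - (s + 1)) (by omega)
        have e1 : M - (s + 1) + 1 = M - s := by omega
        rw [e1] at h1
        calc P.edist (w.getVert (M - (s + 1))) x
            ≤ P.edist (w.getVert (M - (s + 1))) (w.getVert (M - s)) +
              P.edist (w.getVert (M - s)) x := P.edist_triangle
          _ ≤ 1 + (s : ℕ∞) := by
              refine add_le_add ?_ (ih (by omega))
              exact (SimpleGraph.edist_eq_one_iff_adj.2 h1).le
          _ = ((s + 1 : ℕ) : ℕ∞) := by push_cast; rw [add_comm]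
    intro t ht
    have := key (M - t) (by omega)
    have e1 : M - (M - t) = t := by omega
    rwa [e1] at this

theorem pHom : StD12 → StHom := by
  intro hD12 k hk X X' P ht P' ht' hP hP' r hr p hp hH x
  classical
  have hD : DD P (3 * NN k) := ⟨(hD12 P _ hP.bip hP.cyc).1, (hD12 P _ hP.bip hP.cyc).2.1,
    (hD12 P _ hP.bip hP.cyc).2.2⟩
  have hD' : DD P' (3 * NN k) := ⟨(hD12 P' _ hP'.bip hP'.cyc).1,
    (hD12 P' _ hP'.bip hP'.cyc).2.1, (hD12 P' _ hP'.bip hP'.cyc).2.2⟩
  obtain ⟨hHd, hHh⟩ := hH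
  have hpow : 2 ^ (r + 1) = 2 * 2 ^ r := by rw [pow_succ]; ring
  rw [hpow] at hHd hHh
  have hDN : 2 * 2 ^ r ≤ NN k := by
    rw [← hpow]
    unfold NN
    exact Nat.pow_le_pow_right (by norm_num) hr
  have hDpos : 0 < 2 ^ r := Nat.pos_of_ne_zero (by positivity)
  set D := 2 ^ r with hDdef
  have hHN : 2 * NN k ≤ HH k := le_of_eq rfl
  -- old pairs
  have hold : ∀ a ∈ p, ∀ b ∈ p, ∀ d : ℕ, d + a.2.2 + b.2.2 ≤ D →
      (P.edist a.1 b.1 = (d : ℕ∞) ↔ P'.edist a.2.1 b.2.1 = (d : ℕ∞)) :=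
    fun a ha b hb d hd => hHd a ha b hb d (by omega)
  have holdh : ∀ a ∈ p, min (ht a.1) D = min (ht' a.2.1) D := by
    intro a ha
    have h := hHh a ha
    rcases le_total (ht a.1) (2 * D) with h1 | h1 <;>
      rcases le_total (ht' a.2.1) (2 * D) with h2 | h2
    · rw [min_eq_left h1, min_eq_left h2] at h; rw [h]
    · rw [min_eq_left h1, min_eq_right h2] at h
      rw [min_eq_right (by omega), min_eq_right (by omega)]
    · rw [min_eq_right h1, min_eq_left h2] at h
      rw [min_eq_right (by omega), min_eq_right (by omega)]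
    · rw [min_eq_right (by omega), min_eq_right (by omega)]
  -- it is enough to treat the pairs (new, old)
  have hfin : ∀ x' : X', min (ht x) D = min (ht' x') D →
      (∀ i ∈ p, ∀ d : ℕ, d + i.2.2 ≤ D →
        (P.edist x i.1 = (d : ℕ∞) ↔ P'.edist x' i.2.1 = (d : ℕ∞))) →
      Hom P ht P' ht' r ((x, x', 0) :: p) := by
    intro x' h1 h2
    refine ⟨?_, ?_⟩
    · intro a ha b hb d hd
      rcases List.mem_cons.1 ha with rfl | ha <;> rcases List.mem_cons.1 hb with rfl | hb
      · simp only [SimpleGraph.edist_self]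
      · exact h2 b hb d (by simp only at hd; omega)
      · have := h2 a ha d (by simp only at hd; omega)
        rw [SimpleGraph.edist_comm (u := x), SimpleGraph.edist_comm (u := x')] at this
        exact this
      · exact hold a ha b hb d hd
    · intro a ha
      rcases List.mem_cons.1 ha with rfl | ha
      · exact h1
      · exact holdh a ha
  let I : X × X' × ℕ → Prop := fun j => j ∈ p ∧ ∃ d : ℕ, P.edist x j.1 = (d : ℕ∞) ∧
    d + j.2.2 ≤ D
  let J : X × X' × ℕ → Prop := fun i => i ∈ p ∧ ∀ j, I j → ∃ c : ℕ,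
    P'.edist i.2.1 j.2.1 = (c : ℕ∞) ∧ c + i.2.2 + j.2.2 ≤ 2 * D
  by_cases hI : ∃ i0, I i0
  · obtain ⟨i0, hi0⟩ := hI
    obtain ⟨hi0p, M, hM, hMD⟩ := hi0
    have hi0 : I i0 := ⟨hi0p, M, hM, hMD⟩
    obtain ⟨z, hz0, hzM, hadjz, hza, hzx⟩ := geo P (by rw [SimpleGraph.edist_comm]; exact hM :
      P.edist i0.1 x = (M : ℕ∞))
    have hIJ : ∀ i, I i → J i := by
      intro i hi
      refine ⟨hi.1, ?_⟩
      intro j hj
      obtain ⟨hip, di, hdi, hdi'⟩ := hi
      obtain ⟨hjp, dj, hdj, hdj'⟩ := hj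
      have h1 : P.edist i.1 j.1 ≤ ((di + dj : ℕ) : ℕ∞) := by
        calc P.edist i.1 j.1 ≤ P.edist i.1 x + P.edist x j.1 := P.edist_triangle
          _ = ((di + dj : ℕ) : ℕ∞) := by
            rw [SimpleGraph.edist_comm (u := i.1), hdi, hdj]; push_cast; rfl
      obtain ⟨c, hc, hcle⟩ := ENat.le_natCast_iff.1 h1
      exact ⟨c, (hHd i hip j hjp c (by omega)).1 hc, by omega⟩
    have hcc : ∀ i, J i → ∀ j, I j → ∃ c : ℕ, c ≤ 2 * D ∧ P.edist j.1 i.1 = (c : ℕ∞) ∧
        P'.edist j.2.1 i.2.1 = (c : ℕ∞) := by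
      intro i hi j hj
      obtain ⟨c, hc, hcle⟩ := hi.2 j hj
      refine ⟨c, by omega, ?_, ?_⟩
      · rw [SimpleGraph.edist_comm]
        exact (hHd i hi.1 j hj.1 c hcle).2 hc
      · rw [SimpleGraph.edist_comm]
        exact hc
    have hbI : ∀ j, I j → ∀ t ≤ M, ∃ d : ℕ, P.edist (z t) j.1 = (d : ℕ∞) ∧
        d ≤ (M - t) + D := by
      intro j hj t ht1
      obtain ⟨_, dj, hdj, hdj'⟩ := hj
      have h1 : P.edist (z t) j.1 ≤ (((M - t) + dj : ℕ) : ℕ∞) := by
        calc P.edist (z t) j.1 ≤ P.edist (z t) x + P.edist x j.1 := P.edist_triangle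
          _ ≤ ((M - t : ℕ) : ℕ∞) + (dj : ℕ∞) := add_le_add (hzx t ht1) hdj.le
          _ = (((M - t) + dj : ℕ) : ℕ∞) := by push_cast; rfl
      obtain ⟨d, hd, hdle⟩ := ENat.le_natCast_iff.1 h1
      exact ⟨d, hd, by omega⟩
    have hbJ : ∀ i, J i → ∀ t ≤ M, ∃ d : ℕ, P.edist (z t) i.1 = (d : ℕ∞) ∧
        d ≤ t + 2 * D := by
      intro i hi t ht1
      obtain ⟨c, hcle, hc, _⟩ := hcc i hi i0 hi0
      have h1 : P.edist (z t) i.1 ≤ ((t + c : ℕ) : ℕ∞) := by
        calc P.edist (z t) i.1 ≤ P.edist (z t) i0.1 + P.edist i0.1 i.1 := P.edist_triangle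
          _ ≤ (t : ℕ∞) + (c : ℕ∞) := add_le_add (hza t ht1) hc.le
          _ = ((t + c : ℕ) : ℕ∞) := by push_cast; rfl
      obtain ⟨d, hd, hdle⟩ := ENat.le_natCast_iff.1 h1
      exact ⟨d, hd, by omega⟩
    have hne2 : ∀ t, t + 2 ≤ M → z (t + 2) ≠ z t := by
      intro t ht1 he
      have h1 := hza t (by omega)
      have h2 := hzx (t + 2) ht1
      rw [he] at h2
      have h3 : P.edist i0.1 x ≤ ((t + (M - (t + 2)) : ℕ) : ℕ∞) := by
        calc P.edist i0.1 x ≤ P.edist i0.1 (z t) + P.edist (z t) x := P.edist_triangle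
          _ ≤ (t : ℕ∞) + ((M - (t + 2) : ℕ) : ℕ∞) := by
            refine add_le_add ?_ h2
            rw [SimpleGraph.edist_comm]; exact h1
          _ = ((t + (M - (t + 2)) : ℕ) : ℕ∞) := by push_cast; rfl
      rw [SimpleGraph.edist_comm, hM] at h3
      have h4 : M ≤ t + (M - (t + 2)) := by exact_mod_cast h3
      omega
    have c : Ctx P ht P' ht' k D M p I J z i0 :=
      { hP := hP
        hP' := hP'
        hD := hD
        hD' := hD'
        hDN := hDN
        hMD := by omega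
        hN := hHN
        plen := hp
        adjz := hadjz
        hi0 := hi0
        IJ := hIJ
        Jp := fun i hi => hi.1
        b0 := hza
        bI := hbI
        bJ := hbJ
        cc := hcc
        hts := fun i hi => hHh i hi.1
        ne2 := hne2 }
    have h0 : S1 P ht P' ht' D J z 0 i0.2.1 := by
      refine ⟨?_, ?_⟩
      · rw [hz0]
        exact hHh i0 hi0p
      · intro i hi
        obtain ⟨c, _, hc1, hc2⟩ := hcc i hi i0 hi0
        rw [hz0, hc1, hc2]
    obtain ⟨y, hy1, hy2, hy3⟩ := run_end c i0.2.1 h0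
    rw [hzM] at hy1 hy2 hy3
    refine ⟨y, hfin y hy1 ?_⟩
    intro i hip d hd
    by_cases hiI : I i
    · rw [hy2 i hiI]
    · constructor
      · intro h
        exact absurd ⟨hip, d, h, hd⟩ hiI
      · intro h
        exfalso
        have hiJ : J i := by
          refine ⟨hip, ?_⟩
          intro j hj
          obtain ⟨hjp, dj, hdj, hdj'⟩ := hj
          have hj : I j := ⟨hjp, dj, hdj, hdj'⟩
          have h1 : P'.edist i.2.1 j.2.1 ≤ ((d + dj : ℕ) : ℕ∞) := by
            calc P'.edist i.2.1 j.2.1 ≤ P'.edist i.2.1 y + P'.edist y j.2.1 :=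
                  P'.edist_triangle
              _ = ((d + dj : ℕ) : ℕ∞) := by
                rw [SimpleGraph.edist_comm (u := i.2.1), h, ← hy2 j hj, hdj]; push_cast; rfl
          obtain ⟨c, hc, hcle⟩ := ENat.le_natCast_iff.1 h1
          exact ⟨c, hc, by omega⟩
        have h1 := hy3 i hiJ
        rw [h] at h1
        obtain ⟨d1, hd1, hd1le⟩ := ENat.le_natCast_iff.1 h1
        exact hiI ⟨hip, d1, hd1, by omega⟩
  · -- no mark is near
    obtain ⟨x', hx'1, hx'2⟩ := hP'.far ((p.map (fun i => i.2.1)).toFinset)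
      ((List.toFinset_card_le _).trans (by rw [List.length_map]; exact hp))
      (min (ht x) D) ((min_le_right _ _).trans (by omega))
    refine ⟨x', hfin x' ?_ ?_⟩
    · rw [hx'1, min_assoc, min_self]
    · intro i hip d hd
      constructor
      · intro h
        exact absurd ⟨i, hip, d, h, hd⟩ hI
      · intro h
        exfalso
        have h1 := hx'2 i.2.1 (by
          rw [List.mem_toFinset, List.mem_map]
          exact ⟨i, hip, rfl⟩)
        rw [h] at h1
        have h2 : NN k < d := by exact_mod_cast h1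
        omega

end Pool.Agent.Helper51.LD
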