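import Pool.Agent.Helper2.LD.St5

/-!
# LD project: no open copies of centres, so the skeleton is the tree skeleton
-/

set_option autoImplicit false

namespace Pool.Agent.Helper51.LD

open Pool.Agent.Helper2.LD

/-! ## Bisimulations -/

private theorem bisim {X W K : Type} (T : SimpleGraph X) (tl : X → Finset K) (M : SimpleGraph W)
    (lm : W → Finset K) (R : X → W → Prop) (r : X)
    (hR1 : ∀ x g, R x g → lm g = tl x)
    (hR2 : ∀ x g y, R x g → T.Adj x y → ∃ g', M.Adj g g' ∧ R y g')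
    (hR3 : ∀ x g g', R x g → M.Adj g g' → ∃ y, T.Adj x y ∧ R y g')
    (tot1 : ∀ x, ∃ g, R x g) (tot2 : ∀ g, ∃ x, R x g)
    (injT : ∀ x y z, T.Adj x y → T.Adj x z → tl y = tl z → y = z)
    (injM : ∀ x y z, M.Adj x y → M.Adj x z → lm y = lm z → y = z)
    (uniT : ∀ x, tl x = tl r → x = r) (uniM : ∀ g g', lm g = tl r → lm g' = tl r → g = g')
    (conn : ∀ x, T.Reachable x r) : ∃ φ : T ≃g M, ∀ x, lm (φ x) = tl x := by
  have u1' : ∀ (x y : X) (w : T.Walk x y), y = r → ∀ g g', R x g → R x g' → g = g' := by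
    intro x y w
    induction w with
    | nil =>
      rintro rfl g g' h h'
      exact uniM g g' (hR1 _ _ h) (hR1 _ _ h')
    | @cons a b d hab p ih =>
      intro hd g g' h h'
      obtain ⟨g1, h1, h2⟩ := hR2 _ _ _ h hab
      obtain ⟨g1', h1', h2'⟩ := hR2 _ _ _ h' hab
      obtain rfl := ih hd g1 g1' h2 h2'
      exact injM g1 g g' h1.symm h1'.symm ((hR1 _ _ h).trans (hR1 _ _ h').symm)
  have u2' : ∀ (x y : X) (w : T.Walk x y), y = r → ∀ x' g, R x g → R x' g → x = x' := by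
    intro x y w
    induction w with
    | nil =>
      rintro rfl x' g h h'
      exact (uniT x' ((hR1 _ _ h').symm.trans (hR1 _ _ h))).symm
    | @cons a b d hab p ih =>
      intro hd x' g h h'
      obtain ⟨g1, h1, h2⟩ := hR2 _ _ _ h hab
      obtain ⟨y', h3, h4⟩ := hR3 _ _ _ h' h1
      obtain rfl := ih hd y' g1 h2 h4
      exact injT b a x' hab.symm h3.symm ((hR1 _ _ h).symm.trans (hR1 _ _ h'))
  have u1 : ∀ x g g', R x g → R x g' → g = g' := by
    intro x
    obtain ⟨w⟩ := conn x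
    exact u1' x r w rfl
  have u2 : ∀ x x' g, R x g → R x' g → x = x' := by
    intro x x' g
    obtain ⟨w⟩ := conn x
    exact u2' x r w rfl x' g
  choose φ hφ using tot1
  choose ψ hψ using tot2
  refine ⟨⟨⟨φ, ψ, ?_, ?_⟩, ?_⟩, ?_⟩
  · intro x
    exact u2 _ _ _ (hψ (φ x)) (hφ x)
  · intro g
    exact u1 _ _ _ (hφ (ψ g)) (hψ g)
  · intro x y
    change M.Adj (φ x) (φ y) ↔ T.Adj x y
    constructor
    · intro h
      obtain ⟨y', h1, h2⟩ := hR3 _ _ _ (hφ x) h
      rw [u2 _ _ _ (hφ y) h2]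
      exact h1
    · intro h
      obtain ⟨g', h1, h2⟩ := hR2 _ _ _ (hφ x) h
      rw [u1 _ _ _ (hφ y) h2]
      exact h1
  · intro x
    exact hR1 _ _ (hφ x)

/-! ## Labels -/

section

variable {V Q Λ B FB : Type} {N e : ℕ} {c : Core V Q Λ B FB} {s : Ch V Q}

private theorem piK_inj {i j : ℕ} (hi : i ≤ 2 * N) (hj : j ≤ 2 * N)
    (h : (piK N i : Kd N Λ B FB) = piK N j) : i = j := by
  unfold piK at h
  rw [Kd.pi.injEq, Fin.mk.injEq, Nat.mod_eq_of_lt (by omega), Nat.mod_eq_of_lt (by omega)] at h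
  exact h

private theorem mem_core {x : V} {κ : Kd N Λ B FB} :
    κ ∈ gl N e c (.core x) ↔ κ = .kap (c.lb x) := by
  simp [gl]

private theorem mem_tru {x : V} {j : ℕ} {κ : Kd N Λ B FB} :
    κ ∈ gl N e c (.tru x j) ↔ κ = .del (c.lb x) ∨ κ = piK N j := by
  simp [gl]

private theorem mem_gho {q : Q} {j : ℕ} (hj : j ≠ e) {κ : Kd N Λ B FB} :
    κ ∈ gl N e c (.gho q j) ↔ κ = .gam (c.bs (c.lb (c.ow q))) (c.fl q) ∨ κ = piK N j := by
  simp [gl, hj]

private theorem mem_ghe {q : Q} {κ : Kd N Λ B FB} :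
    κ ∈ gl N e c (.gho q e) ↔ κ = .kap (c.lb (c.ow ((c.nx^[e]) q))) ∨
      κ = .kap (c.lb (c.ow ((c.nx^[3 * e]) q))) := by
  simp [gl]

private theorem kap_ne (hp : Par N e) (hc : CoreAx N e c) (q : Q) :
    c.lb (c.ow ((c.nx^[e]) q)) ≠ c.lb (c.ow ((c.nx^[3 * e]) q)) := by
  intro h
  obtain ⟨h1, h2⟩ := hp
  have h3 := hc.iso ((c.nx^[e]) q) (2 * e) le_rfl
  rw [← Function.iterate_add_apply, show 2 * e + e = 3 * e by omega] at h3
  have h4 : c.ow ((c.nx^[e]) q) = c.ow ((c.nx^[3 * e]) q) := by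
    apply hc.k5
    · rw [h3]
      exact_mod_cast (by omega : 2 * e ≤ 4 * N + 2)
    · rw [h]
  rw [h4, SimpleGraph.edist_self] at h3
  have h5 : (0 : ℕ) = 2 * e := by exact_mod_cast h3
  omega

private theorem lab_core_gho (hp : Par N e) (hc : CoreAx N e c) {a : Λ} {q : Q} {j : ℕ}
    (h : ({Kd.kap a} : Finset (Kd N Λ B FB)) = gl N e c (.gho q j)) : False := by
  have h1 : ∀ κ : Kd N Λ B FB, κ = .kap a ↔ κ ∈ gl N e c (.gho q j) := by
    intro κ
    rw [← h]
    simp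
  by_cases hj : j = e
  · subst hj
    have h2 := (h1 (.kap (c.lb (c.ow ((c.nx^[j]) q))))).2 (mem_ghe.2 (Or.inl rfl))
    have h3 := (h1 (.kap (c.lb (c.ow ((c.nx^[3 * j]) q))))).2 (mem_ghe.2 (Or.inr rfl))
    rw [Kd.kap.injEq] at h2 h3
    exact kap_ne hp hc q (h2.trans h3.symm)
  · have h2 := (h1 (.gam (c.bs (c.lb (c.ow q))) (c.fl q))).2 ((mem_gho hj).2 (Or.inl rfl))
    simp at h2

private theorem lab_gho (hN : e ≤ 2 * N) {q q1 : Q} {i j : ℕ} (hi : i ≤ 2 * N) (hj : j ≤ 2 * N)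
    (h : gl N e c (.gho q i : GH V Q (Kd N Λ B FB)) = gl N e c (.gho q1 j)) : i = j := by
  have h1 : ∀ κ : Kd N Λ B FB, κ ∈ gl N e c (.gho q i) ↔ κ ∈ gl N e c (.gho q1 j) := by
    intro κ
    rw [h]
  by_cases hie : i = e
  · by_cases hje : j = e
    · rw [hie, hje]
    · subst hie
      have h2 := (h1 (piK N j)).2 ((mem_gho hje).2 (Or.inr rfl))
      rw [mem_ghe] at h2
      simp [piK] at h2
  · have h2 := (h1 (piK N i)).1 ((mem_gho hie).2 (Or.inr rfl))
    by_cases hje : j = e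
    · subst hje
      rw [mem_ghe] at h2
      simp [piK] at h2
    · rw [mem_gho hje] at h2
      rcases h2 with h2 | h2
      · simp [piK] at h2
      · exact piK_inj hi hj h2

private theorem lab_tru {x x1 : V} {i j : ℕ} (hi : i ≤ 2 * N) (hj : j ≤ 2 * N)
    (h : gl N e c (.tru x i : GH V Q (Kd N Λ B FB)) = gl N e c (.tru x1 j)) :
    c.lb x = c.lb x1 ∧ i = j := by
  have h1 : ∀ κ : Kd N Λ B FB, κ ∈ gl N e c (.tru x i : GH V Q (Kd N Λ B FB)) ↔
      κ ∈ gl N e c (.tru x1 j : GH V Q (Kd N Λ B FB)) := by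
    intro κ
    rw [h]
  constructor
  · have h2 := (h1 (.del (c.lb x))).1 (mem_tru.2 (Or.inl rfl))
    rw [mem_tru] at h2
    rcases h2 with h2 | h2
    · rw [Kd.del.injEq] at h2
      exact h2
    · simp [piK] at h2
  · have h2 := (h1 (piK N i)).1 (mem_tru.2 (Or.inr rfl))
    rw [mem_tru] at h2
    rcases h2 with h2 | h2
    · simp [piK] at h2
    · exact piK_inj hi hj h2

private theorem lab_gho_tru {q : Q} {x : V} {i j : ℕ}
    (h : gl N e c (.gho q i : GH V Q (Kd N Λ B FB)) = gl N e c (.tru x j)) : False := by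
  have h2 : (Kd.del (c.lb x) : Kd N Λ B FB) ∈ gl N e c (.gho q i : GH V Q (Kd N Λ B FB)) := by
    rw [h]
    exact mem_tru.2 (Or.inl rfl)
  by_cases hi : i = e
  · subst hi
    rw [mem_ghe] at h2
    simp at h2
  · rw [mem_gho hi] at h2
    simp [piK] at h2

private theorem lab_core_tru {a : Λ} {x : V} {j : ℕ}
    (h : ({Kd.kap a} : Finset (Kd N Λ B FB)) = gl N e c (.tru x j : GH V Q (Kd N Λ B FB))) :
    False := by
  have h2 : (Kd.del (c.lb x) : Kd N Λ B FB) ∈ ({Kd.kap a} : Finset (Kd N Λ B FB)) := by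
    rw [h]
    exact mem_tru.2 (Or.inl rfl)
  simp at h2

private theorem lev_tru {K : Type} (u : V) (j : ℕ) :
    lev N c u (.tru u j : GH V Q K) = j := by
  simp [lev, GH.own, GH.ht]

private theorem lev_root {K : Type} (u : V) :
    lev N c u (.core u : GH V Q K) = 0 := by
  simp [lev, GH.own, GH.ht]

private theorem lev_fan {K : Type} (u : V) (l : Finset K) :
    lev N c u (.fan u l : GH V Q K) = 2 * N := by
  simp [lev, GH.own, GH.ht]

private theorem lev_gho {K : Type} (q : Q) (j : ℕ) :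
    lev N c (c.ow q) (.gho q j : GH V Q K) = j := by
  simp [lev, GH.own, GH.ht]

/-! ## Neighbours in the tree skeleton -/

private theorem nbrs (tok : StTok) (hp : Par N e) (hc : CoreAx N e c) (hs : ChAx N c s)
    {x y : TV N e c s} {b : Bool} {u : V} {h : GH V Q (Kd N Λ B FB)} (hx : x.1 = .nat b u h)
    (hxy : (TG N e c s).Adj x y) :
    (lev N c u h ≠ 0 ∧ y.1 = .nat b u (pb N e c s b u h)) ∨
    (∃ h', y.1 = .nat b u h' ∧ lev N c u h' = lev N c u h + 1 ∧ pb N e c s b u h' = h) ∨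
    y.1 = .cap b u h := by
  rw [tok.adj N e c s hp hc hs, hx] at hxy
  rcases hxy with ⟨h1, h2⟩ | ⟨h1, h2⟩ | ⟨b', u', h1, h2⟩ | ⟨b', u', h1, h2⟩
  · left
    exact ⟨h1, h2⟩
  · have hok := (tok.ok N e c s hp hc hs _ y.2 h1).2.1
    cases hy : y.1 with
    | nat b' u' h' =>
      rw [hy] at h2 hok
      simp only [tpar, TH.nat.injEq] at h2
      obtain ⟨rfl, rfl, h3⟩ := h2
      right; left
      refine ⟨h', rfl, ?_, h3.symm⟩
      simp only [tpar, tlev] at hok
      rw [← h3] at hok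
      omega
    | cap b' u' h' =>
      rw [hy] at h2
      simp only [tpar, TH.nat.injEq] at h2
      obtain ⟨rfl, rfl, rfl⟩ := h2
      right; right
      rfl
    | pth b' u' j =>
      rw [hy] at h2
      simp only [tpar] at h2
      split_ifs at h2
    | rt =>
      rw [hy] at h2
      simp [tpar] at h2
  · simp at h1
  · simp at h2

private theorem par1 (tok : StTok) (hp : Par N e) (hc : CoreAx N e c) (hs : ChAx N c s)
    {b : Bool} {u : V} {h : GH V Q (Kd N Λ B FB)} (hx : okT N e c s (.nat b u h))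
    (h1 : lev N c u h = 1) : pb N e c s b u h = .core u := by
  have h2 : tlev N c (.nat b u h : TH V Q (Kd N Λ B FB)) = 1 := h1
  obtain ⟨h3, h4, h5⟩ := tok.ok N e c s hp hc hs _ hx (by omega)
  rcases tok.zero N e c s hp hc hs _ h3 (by omega) with h6 | ⟨b', u', _, h6⟩
  · simp [tpar] at h6
  · simp only [tpar, TH.nat.injEq] at h6
    obtain ⟨rfl, rfl, h7⟩ := h6
    exact h7

private theorem adj_par (tok : StTok) (hp : Par N e) (hc : CoreAx N e c) (hs : ChAx N c s)
    {x y : TV N e c s} (h1 : tlev N c x.1 ≠ 0) (h2 : y.1 = tpar N e c s x.1) :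
    (TG N e c s).Adj x y := by
  rw [tok.adj N e c s hp hc hs]
  exact Or.inl ⟨h1, h2⟩

end

/-! ## Main part -/

section

variable {V Q Λ B FB W : Type} [Fintype Λ] [Fintype B] [Fintype FB] {N e : ℕ}
  {c : Core V Q Λ B FB} {s : Ch V Q} {M : SimpleGraph W} {lm : W → Finset (Kd N Λ B FB)}

/-- The hypotheses. -/
private structure Hy : Prop where
  rg : StRg
  tinj : StTinj
  tsee : StTsee
  minj : StMinj
  cls : StCls
  inner : StInner
  port : StPort
  gch : StGch
  tch : StTch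
  tree : StTtree
  tok : StTok
  tpos : StTpos
  tdist : StTdist

/-- A trunk. -/
private def IsTh (N e : ℕ) (c : Core V Q Λ B FB) (s : Ch V Q) (M : SimpleGraph W)
    (lm : W → Finset (Kd N Λ B FB)) (u : V) (θ : ℕ → W) : Prop :=
  Pt N e c s M lm (.nat true u (.core u)) (θ 0) ∧ (∀ j < 2 * N - 1, M.Adj (θ j) (θ (j + 1))) ∧
  (∀ j, 1 ≤ j → j < 2 * N → lm (θ j) = gl N e c (.tru u j : GH V Q (Kd N Λ B FB)) ∧
    ∀ g', M.Adj (θ j) g' → g' = θ (j - 1) ∨ (j < 2 * N - 1 ∧ g' = θ (j + 1)) ∨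
      (j = 2 * N - 1 ∧ okG N e c (.fan u (lm g')) ∧ g' ≠ θ (j - 1))) ∧
  ∀ l, okG N e c (.fan u l) → ∃ φ, M.Adj (θ (2 * N - 1)) φ ∧ lm φ = l ∧ φ ≠ θ (2 * N - 2) ∧
    ∀ g', M.Adj φ g' → g' = θ (2 * N - 1)

/-- A ghost. -/
private def IsGa (N e : ℕ) (c : Core V Q Λ B FB) (s : Ch V Q) (M : SimpleGraph W)
    (lm : W → Finset (Kd N Λ B FB)) (q : Q) (γ : ℕ → W) : Prop :=
  Pt N e c s M lm (.nat false (c.ow q) (.core (c.ow q))) (γ 0) ∧
  (∀ j < 2 * N, M.Adj (γ j) (γ (j + 1))) ∧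
  ∀ j, 1 ≤ j → j ≤ 2 * N → lm (γ j) = gl N e c (.gho q j : GH V Q (Kd N Λ B FB)) ∧
    ∀ g'', M.Adj (γ j) g'' → g'' = γ (j - 1) ∨ (j < 2 * N ∧ g'' = γ (j + 1))

/-- The relation. -/
private inductive RR (N e : ℕ) (c : Core V Q Λ B FB) (s : Ch V Q) (M : SimpleGraph W)
    (lm : W → Finset (Kd N Λ B FB)) : TH V Q (Kd N Λ B FB) → W → Prop
  | rg (t : TH V Q (Kd N Λ B FB)) (g : W) (h : Rg N e c s (2 * N) t) (hg : Pt N e c s M lm t g) :
      RR N e c s M lm t g
  | rt (g : W) (hg : Pt N e c s M lm .rt g) : RR N e c s M lm .rt g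
  | root (u : V) (g : W) (hg : Pt N e c s M lm (.nat true u (.core u)) g) :
      RR N e c s M lm (.nat true u (.core u)) g
  | tru (u : V) (θ : ℕ → W) (j : ℕ) (hj : 1 ≤ j) (hj' : j < 2 * N)
      (hθ : IsTh N e c s M lm u θ) : RR N e c s M lm (.nat true u (.tru u j)) (θ j)
  | fan (u : V) (θ : ℕ → W) (l : Finset (Kd N Λ B FB)) (g : W) (hl : okG N e c (.fan u l))
      (hθ : IsTh N e c s M lm u θ) (h1 : M.Adj (θ (2 * N - 1)) g) (h2 : lm g = l)
      (h3 : g ≠ θ (2 * N - 2)) : RR N e c s M lm (.nat true u (.fan u l)) g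
  | gho (q : Q) (γ : ℕ → W) (j : ℕ) (hj : 1 ≤ j) (hj' : j ≤ 2 * N)
      (hγ : IsGa N e c s M lm q γ) : RR N e c s M lm (.nat false (c.ow q) (.gho q j)) (γ j)

private theorem pt_lab {t : TH V Q (Kd N Λ B FB)} {g : W} (h : Pt N e c s M lm t g) :
    lm g = tl N e c s t := by
  obtain ⟨h1, h2⟩ := h
  exact h2.1.symm

private theorem rr_lab {t : TH V Q (Kd N Λ B FB)} {g : W} (h : RR N e c s M lm t g) :
    lm g = tl N e c s t := by
  cases h with
  | rg _ _ h hg => exact pt_lab hg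
  | rt _ hg => exact pt_lab hg
  | root _ _ hg => exact pt_lab hg
  | tru u θ j hj hj' hθ => exact (hθ.2.2.1 j hj hj').1
  | fan u θ l _ hl hθ h1 h2 h3 => exact h2
  | gho q γ j hj hj' hγ => exact (hγ.2.2 j hj hj').1

private theorem injM (H : Hy) (cx : Cx N e c s M lm) (x y z : W) (h1 : M.Adj x y)
    (h2 : M.Adj x z) (h3 : lm y = lm z) : y = z := by
  by_contra h4
  refine H.minj.two N e c s M lm cx y z h4 ?_ h3
  refine (SimpleGraph.edist_triangle (v := x)).trans ?_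
  rw [SimpleGraph.edist_eq_one_iff_adj.2 h1.symm, SimpleGraph.edist_eq_one_iff_adj.2 h2]
  norm_num

private theorem injT (H : Hy) (cx : Cx N e c s M lm) (x y z : TV N e c s)
    (h1 : (TG N e c s).Adj x y)
    (h2 : (TG N e c s).Adj x z) (h3 : tL N e c s y = tL N e c s z) : y = z := by
  by_contra h4
  refine H.tinj.inj N e c s cx.par cx.ax cx.ch y z h4 ?_ h3
  refine (SimpleGraph.edist_triangle (v := x)).trans ?_
  rw [SimpleGraph.edist_eq_one_iff_adj.2 h1.symm, SimpleGraph.edist_eq_one_iff_adj.2 h2]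
  norm_num

omit [Fintype Λ] [Fintype B] [Fintype FB] in
private theorem rg_mono {t : TH V Q (Kd N Λ B FB)} (h : Rg N e c s (2 * N - 1) t) :
    Rg N e c s (2 * N) t := by
  obtain ⟨x, υ, h1, h2, h3⟩ := h
  refine ⟨x, υ, h1, h2, h3.trans ?_⟩
  exact_mod_cast (by omega : 2 * N - 1 ≤ 2 * N)

omit [Fintype Λ] [Fintype B] [Fintype FB] in
private theorem rg_nbr (hN : 1 ≤ N) {x y : TV N e c s} (h : Rg N e c s (2 * N - 1) x.1)
    (hxy : (TG N e c s).Adj x y) : Rg N e c s (2 * N) y.1 := by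
  obtain ⟨x', υ, h1, h2, h3⟩ := h
  obtain rfl : x' = x := Subtype.ext h1
  refine ⟨y, υ, rfl, h2, ?_⟩
  refine (SimpleGraph.edist_triangle (v := x')).trans ?_
  rw [SimpleGraph.edist_eq_one_iff_adj.2 hxy]
  refine (add_le_add_left h3 1).trans ?_
  exact_mod_cast (by omega : 2 * N - 1 + 1 ≤ 2 * N)

/-- Argument (***). -/
private theorem strongStep (H : Hy) (cx : Cx N e c s M lm) {x y : TV N e c s} {g g' : W}
    (hx : Rg N e c s (2 * N) x.1) (hg : Pt N e c s M lm x.1 g) (hxy : (TG N e c s).Adj x y)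
    (hy : Rg N e c s (2 * N - 1) y.1) (hgg : M.Adj g g') (hl : lm g' = tL N e c s y) :
    Pt N e c s M lm y.1 g' := by
  obtain ⟨g2, h1⟩ := (H.minj.ex N e c s M lm cx).2 y.1 y.2
  obtain ⟨g3, h2, h3⟩ := (H.rg.nbr N e c s M lm cx y.1 g2 hy h1).1 y x rfl hxy.symm
  obtain rfl := (H.rg.uniq N e c s M lm cx x.1 hx).unique h2 hg
  have h4 : lm g2 = tL N e c s y := pt_lab h1
  rw [injM H cx g3 g' g2 hgg h3.symm (hl.trans h4.symm)]
  exact h1

/-- Reduction to labels. -/
private theorem step (H : Hy) (cx : Cx N e c s M lm) {x : TV N e c s} {g : W}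
    (hg : Pt N e c s M lm x.1 g)
    (h : ∀ y g', (TG N e c s).Adj x y → M.Adj g g' → lm g' = tL N e c s y →
      RR N e c s M lm y.1 g') :
    (∀ y, (TG N e c s).Adj x y → ∃ g', M.Adj g g' ∧ RR N e c s M lm y.1 g') ∧
    ∀ g', M.Adj g g' → ∃ y, (TG N e c s).Adj x y ∧ RR N e c s M lm y.1 g' := by
  obtain ⟨h1, h2, h3⟩ := H.minj.nbr N e c s M lm cx x g hg
  constructor
  · intro y hy
    obtain ⟨g', ⟨h4, h5⟩, _⟩ := h2 y hy
    exact ⟨g', h4, h y g' hy h4 h5⟩
  · intro g' hg'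
    obtain ⟨y, ⟨h4, h5⟩, _⟩ := h3 g' hg'
    exact ⟨y, h4, h y g' h4 hg' h5.symm⟩

private theorem pt_of_lab (H : Hy) (cx : Cx N e c s M lm) {y : TV N e c s} {g : W}
    (hy : ∀ b u h, y.1 ≠ .nat b u h) (hl : lm g = tL N e c s y) : Pt N e c s M lm y.1 g := by
  obtain ⟨t, h1⟩ := (H.minj.ex N e c s M lm cx).1 g
  obtain ⟨h2, h3⟩ := h1
  have h4 : y = ⟨t, h2⟩ := H.tinj.cap N e c s cx.par cx.ax cx.ch y ⟨t, h2⟩
    (hl.symm.trans h3.1.symm) hy
  rw [h4]
  exact ⟨h2, h3⟩

private theorem th_ex (H : Hy) (cx : Cx N e c s M lm) {u : V} {g : W}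
    (hg : Pt N e c s M lm (.nat true u (.core u)) g) :
    ∃ θ, IsTh N e c s M lm u θ ∧ θ 0 = g := by
  obtain ⟨θ, h0, h1, h2, h3⟩ := H.tch N e c s M lm cx u g hg
  refine ⟨θ, ⟨by rw [h0]; exact hg, h1, ?_, h3⟩, h0⟩
  intro j hj hj'
  obtain ⟨⟨u', h4, h5⟩, h6⟩ := h2 j hj hj'
  refine ⟨?_, h6⟩
  rw [pt_lab h5]
  change gl N e c (.tru u' j) = gl N e c (.tru u j)
  simp only [gl, h4]

omit [Fintype Λ] [Fintype B] [Fintype FB] in
private theorem tpar_gho (b : Bool) (u : V) (q : Q) : ∀ k j, k < j →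
    (tpar N e c s)^[k] (.nat b u (.gho q j) : TH V Q (Kd N Λ B FB)) = .nat b u (.gho q (j - k)) := by
  intro k
  induction k with
  | zero => intro j _; rfl
  | succ k ih =>
    intro j hj
    rw [Function.iterate_succ_apply', ih j (by omega)]
    simp only [tpar, pb, GH.dp]
    rw [if_neg (by omega)]
    congr 2

private theorem chain {X : Type} {G : SimpleGraph X} {γ : ℕ → X} {m : ℕ}
    (h : ∀ j < m, G.Adj (γ j) (γ (j + 1))) (i : ℕ) : ∀ k, i + k ≤ m →
    G.edist (γ i) (γ (i + k)) ≤ (k : ℕ∞) := by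
  intro k
  induction k with
  | zero => intro _; simp
  | succ k ih =>
    intro hk
    refine (SimpleGraph.edist_triangle (v := γ (i + k))).trans ?_
    have h1 := ih (by omega)
    have h2 := SimpleGraph.edist_eq_one_iff_adj.2 (h (i + k) (by omega))
    rw [← add_assoc, h2]
    push_cast
    exact add_le_add_left h1 1

private theorem ga_ex (H : Hy) (cx : Cx N e c s M lm) {q : Q} {g g' : W}
    (hg : Pt N e c s M lm (.nat false (c.ow q) (.core (c.ow q))) g) (hgg : M.Adj g g')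
    (hl : lm g' = gl N e c (.gho q 1 : GH V Q (Kd N Λ B FB))) :
    ∃ γ, IsGa N e c s M lm q γ ∧ γ 0 = g ∧ γ 1 = g' := by
  obtain ⟨hN, he⟩ := cx.par
  obtain ⟨q', h1, h2, h3⟩ := H.port.sp N e c s M lm cx (c.ow q) g hg q rfl g' hgg hl
  obtain ⟨γ, h4, h5, h6, h7⟩ := H.gch N e c s M lm cx q g g' q' (pt_lab hg) hgg hl h3
  refine ⟨γ, ⟨by rw [h4]; exact hg, h6, ?_⟩, h4, h5⟩
  intro j hj hj'
  obtain ⟨⟨q2, h8, h9, h10⟩, h11⟩ := h7 j hj hj'
  refine ⟨?_, h11⟩
  have h12 : lm (γ j) = gl N e c (.gho q2 j : GH V Q (Kd N Λ B FB)) := pt_lab h10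
  by_cases hje : j = e
  · subst hje
    obtain ⟨hok, hdr⟩ := hg
    obtain ⟨t, ht1, ht2, ht3, ht4⟩ := hdr.2.2 (γ j)
    have hle : M.edist g (γ j) ≤ (j : ℕ∞) := by
      have := chain h6 0 j (by omega)
      rwa [Nat.zero_add, h4] at this
    have hne : M.edist g (γ j) ≠ ⊤ := by
      intro h
      rw [h] at hle
      exact absurd hle (by simp)
    obtain ⟨d, hd⟩ := WithTop.ne_top_iff_exists.1 hne
    have hd' : M.edist g (γ j) = (d : ℕ∞) := hd.symm
    have hdj : d ≤ j := by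
      rw [hd'] at hle
      exact_mod_cast hle
    have hTd : (TG N j c s).edist ⟨_, hok⟩ t = (d : ℕ∞) := (ht3 d (by omega)).2 hd'
    have hnl : tL N j c s t ∈ NLb N j c := by
      rw [ht1, h12]
      exact Or.inr (Or.inl ⟨q2, j, by omega, by omega, rfl⟩)
    obtain ⟨h', hh'⟩ := H.tsee.nat N j c s cx.par cx.ax cx.ch ⟨_, hok⟩ t false (c.ow q) _ rfl
      (by rw [hTd]; exact_mod_cast (by omega : d ≤ 2 * N)) hnl
    have hroot := H.tdist.root N j c s cx.par cx.ax cx.ch ⟨_, hok⟩ t false (c.ow q) rfl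
      (by rw [hh']; rfl)
    rw [hTd, hh'] at hroot
    have hlev : d = lev N c (c.ow q) h' := by
      have : (d : ℕ∞) = ((lev N c (c.ow q) h' : ℕ) : ℕ∞) := hroot
      exact_mod_cast this
    have htl : gl N j c h' = gl N j c (.gho q2 j : GH V Q (Kd N Λ B FB)) := by
      have h13 : tL N j c s t = gl N j c h' := by
        unfold tL
        rw [hh']
        rfl
      rw [← h13, ht1, h12]
    have htok := t.2
    rw [hh'] at htok
    cases h' with
    | core z => exact (lab_core_gho cx.par cx.ax htl).elim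
    | tru z i => exact (lab_gho_tru htl.symm).elim
    | fan z l =>
      exfalso
      simp only [lev, GH.ht] at hlev
      omega
    | gho q3 i =>
      obtain rfl : i = j := lab_gho (by omega) htok.2.1.2 (by omega) htl
      simp only [lev, GH.ht, GH.own] at hlev
      have hdist : c.G.dist (c.ow q) (c.ow q3) = 0 := by omega
      have hdi : d = i := by omega
      have how : c.ow q = c.ow q3 := (cx.ax.conn.dist_eq_zero_iff).1 hdist
      have hwin : Win i M lm g (γ i) 1 (.gam (c.bs (c.lb (c.ow q))) (c.fl q)) := by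
        refine ⟨i - 1, by omega, by omega, ?_, γ 1, ?_, ?_, ?_⟩
        · rw [hd', hdi]
          congr 1
          omega
        · rw [h5]
          exact SimpleGraph.edist_eq_one_iff_adj.2 hgg
        · have h13 := chain h6 1 (i - 1) (by omega)
          rw [show 1 + (i - 1) = i by omega] at h13
          apply le_antisymm h13
          have h14 : M.edist g (γ i) ≤ M.edist g (γ 1) + M.edist (γ 1) (γ i) :=
            SimpleGraph.edist_triangle
          rw [h5, SimpleGraph.edist_eq_one_iff_adj.2 hgg, hd', hdi, ← h5] at h14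
          have hne' : M.edist (γ 1) (γ i) ≠ ⊤ := by
            intro h
            rw [h] at h13
            exact absurd h13 (by simp)
          obtain ⟨d', hd2⟩ := WithTop.ne_top_iff_exists.1 hne'
          have hd3 : M.edist (γ 1) (γ i) = (d' : ℕ∞) := hd2.symm
          rw [hd3] at h14 ⊢
          have h15 : i ≤ 1 + d' := by exact_mod_cast h14
          exact_mod_cast (by omega : i - 1 ≤ d')
        · rw [h5, hl]
          exact (mem_gho (by omega)).2 (Or.inl rfl)
      obtain ⟨q', _, _, hw3, z, hw4, hw5, hw6⟩ := (ht4 1 _).2 hwin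
      have hq' : q' = i - 1 := by
        rw [hTd, hdi] at hw3
        have : i = 1 + q' := by exact_mod_cast hw3
        omega
      have hz := (H.tpos N i c s cx.par cx.ax cx.ch ⟨_, hok⟩ t z false (c.ow q) 1 q' rfl
        (by rw [hh']; rfl) (by
          rw [hh']
          simp only [tlev, lev, GH.own, GH.ht]
          omega)).1 ⟨hw4, hw5⟩
      rw [hh', tpar_gho _ _ _ _ _ (by omega), show i - q' = 1 by omega] at hz
      have hz2 : tL N i c s z = gl N i c (.gho q3 1 : GH V Q (Kd N Λ B FB)) := by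
        unfold tL
        rw [hz]
        rfl
      rw [hz2, mem_gho (by omega)] at hw6
      rcases hw6 with hw6 | hw6
      · rw [Kd.gam.injEq] at hw6
        obtain rfl : q = q3 := cx.ax.k8 q q3 how hw6.2
        rw [h12, ← htl]
      · simp [piK] at hw6
  · rw [h12]
    simp only [gl, h8, h9, if_neg hje]

/-! ## Steps -/

private theorem s_strong (H : Hy) (cx : Cx N e c s M lm) {x : TV N e c s} {g : W}
    (hx : Rg N e c s (2 * N - 1) x.1) (hg : Pt N e c s M lm x.1 g) :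
    (∀ y, (TG N e c s).Adj x y → ∃ g', M.Adj g g' ∧ RR N e c s M lm y.1 g') ∧
    ∀ g', M.Adj g g' → ∃ y, (TG N e c s).Adj x y ∧ RR N e c s M lm y.1 g' := by
  obtain ⟨hN, he⟩ := cx.par
  obtain ⟨h1, h2⟩ := H.rg.nbr N e c s M lm cx x.1 g hx hg
  constructor
  · intro y hy
    obtain ⟨g', h3, h4⟩ := h1 x y rfl hy
    exact ⟨g', h4, .rg _ _ (rg_nbr (by omega) hx hy) h3⟩
  · intro g' hg'
    obtain ⟨x', y, h3, h4, h5⟩ := h2 g' hg'
    obtain rfl : x' = x := Subtype.ext h3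
    exact ⟨y, h4, .rg _ _ (rg_nbr (by omega) hx h4) h5⟩

omit [Fintype Λ] [Fintype B] [Fintype FB] in
private theorem dep_true : dep N true = 2 * N := by simp [dep]

omit [Fintype Λ] [Fintype B] [Fintype FB] in
private theorem dep_false : dep N false = 2 * N - 1 := by simp [dep]

private theorem s_bnd (H : Hy) (cx : Cx N e c s M lm) {x : TV N e c s} {g : W} {u : V}
    {h : GH V Q (Kd N Λ B FB)} (hh : (∃ w, c.G.Adj u w ∧ h = .core w) ∨
      ∃ q, c.ow q = u ∧ h = .gho q 1) (hx : x.1 = .nat true u h) (hg : Pt N e c s M lm x.1 g) :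
    (∀ y, (TG N e c s).Adj x y → ∃ g', M.Adj g g' ∧ RR N e c s M lm y.1 g') ∧
    ∀ g', M.Adj g g' → ∃ y, (TG N e c s).Adj x y ∧ RR N e c s M lm y.1 g' := by
  obtain ⟨hN, he⟩ := cx.par
  have hlev : lev N c u h = 1 := by
    rcases hh with ⟨w, h1, rfl⟩ | ⟨q, rfl, rfl⟩
    · simp only [lev, GH.own, GH.ht]
      rw [SimpleGraph.dist_eq_one_iff_adj.2 h1]
    · exact lev_gho _ _
  have hxok := x.2
  rw [hx] at hxok
  have hrg : Rg N e c s (2 * N) x.1 := by
    refine (H.cls.rg N e c s cx.par cx.ax cx.ch x.1 x.2 ?_).1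
    rw [hx]
    rcases hh with ⟨w, h1, rfl⟩ | ⟨q, rfl, rfl⟩
    · exact Or.inl ⟨u, w, h1, rfl⟩
    · exact Or.inr (Or.inl ⟨_, q, rfl, rfl⟩)
  refine step H cx hg ?_
  intro y g' hxy hgg hl
  rcases nbrs H.tok cx.par cx.ax cx.ch hx hxy with ⟨h1, h2⟩ | ⟨h', h2, h3, h4⟩ | h2
  · rw [par1 H.tok cx.par cx.ax cx.ch hxok hlev] at h2
    rw [h2]
    refine .root _ _ ?_
    refine H.inner N e c s M lm cx u h g g' hh ?_ hgg ?_
    · rw [← hx]
      exact hg
    · rw [hl]
      unfold tL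
      rw [h2]
      rfl
  · have hyok := y.2
    rw [h2] at hyok
    have hst : Rg N e c s (2 * N - 1) y.1 := by
      rw [h2]
      refine H.cls.strong N e c s cx.par cx.ax cx.ch true u h' hyok (Or.inl ⟨rfl, by omega, ?_, ?_⟩)
      · intro j hj
        rw [hj] at h4
        simp only [pb, GH.dp] at h4
        rcases hh with ⟨w, h5, rfl⟩ | ⟨q, rfl, rfl⟩
        · split_ifs at h4
          rw [GH.core.injEq] at h4
          rw [h4] at h5
          exact c.G.loopless.irrefl _ h5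
        · split_ifs at h4
      · intro l hl'
        rw [hl'] at h4
        simp only [pb, GH.dp] at h4
        rcases hh with ⟨w, h5, rfl⟩ | ⟨q, rfl, rfl⟩
        · simp at h4
        · simp at h4
    exact .rg _ _ (rg_mono hst) (strongStep H cx hrg hg hxy hst hgg hl)
  · exfalso
    have hyok := y.2
    rw [h2] at hyok
    have h5 := hyok.2.2.1
    rw [dep_true] at h5
    omega

private theorem s_rf (H : Hy) (cx : Cx N e c s M lm) {x : TV N e c s} {g : W} {u : V}
    (hx : x.1 = .nat false u (.core u)) (hg : Pt N e c s M lm x.1 g) :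
    (∀ y, (TG N e c s).Adj x y → ∃ g', M.Adj g g' ∧ RR N e c s M lm y.1 g') ∧
    ∀ g', M.Adj g g' → ∃ y, (TG N e c s).Adj x y ∧ RR N e c s M lm y.1 g' := by
  obtain ⟨hN, he⟩ := cx.par
  have hrg : Rg N e c s (2 * N) x.1 := by
    refine (H.cls.rg N e c s cx.par cx.ax cx.ch x.1 x.2 ?_).1
    rw [hx]
    exact Or.inr (Or.inr (Or.inl ⟨u, rfl⟩))
  refine step H cx hg ?_
  intro y g' hxy hgg hl
  rcases nbrs H.tok cx.par cx.ax cx.ch hx hxy with ⟨h1, h2⟩ | ⟨h', h2, h3, h4⟩ | h2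
  · exact absurd (lev_root u) h1
  · have hyok := y.2
    rw [h2] at hyok
    rw [lev_root] at h3
    by_cases hgh : ∃ q j, c.ow q = u ∧ h' = .gho q j
    · obtain ⟨q, j, rfl, rfl⟩ := hgh
      have hj1 : j = 1 := by
        have h5 := hyok.2.1.1
        rw [lev_gho] at h3
        omega
      subst hj1
      have hl' : lm g' = gl N e c (.gho q 1 : GH V Q (Kd N Λ B FB)) := by
        rw [hl]
        unfold tL
        rw [h2]
        rfl
      rw [hx] at hg
      obtain ⟨γ, h6, h7, h8⟩ := ga_ex H cx hg hgg hl'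
      rw [h2, ← h8]
      exact .gho q γ 1 le_rfl (by omega) h6
    · have hst : Rg N e c s (2 * N - 1) y.1 := by
        rw [h2]
        refine H.cls.strong N e c s cx.par cx.ax cx.ch false u h' hyok
          (Or.inr ⟨rfl, by omega, ?_⟩)
        intro q j hq hj
        exact hgh ⟨q, j, hq, hj⟩
      exact .rg _ _ (rg_mono hst) (strongStep H cx hrg hg hxy hst hgg hl)
  · exfalso
    have hyok := y.2
    rw [h2] at hyok
    have h5 := hyok.2.2.1
    rw [dep_false, lev_root] at h5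
    omega

private theorem s_pth (H : Hy) (cx : Cx N e c s M lm) {x : TV N e c s} {g : W} {b : Bool} {u : V}
    (hx : x.1 = .pth b u (2 * N)) (hg : Pt N e c s M lm x.1 g) :
    (∀ y, (TG N e c s).Adj x y → ∃ g', M.Adj g g' ∧ RR N e c s M lm y.1 g') ∧
    ∀ g', M.Adj g g' → ∃ y, (TG N e c s).Adj x y ∧ RR N e c s M lm y.1 g' := by
  obtain ⟨hN, he⟩ := cx.par
  refine step H cx hg ?_
  intro y g' hxy hgg hl
  have hxy' := hxy
  rw [H.tok.adj N e c s cx.par cx.ax cx.ch, hx] at hxy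
  rcases hxy with ⟨h1, h2⟩ | ⟨h1, h2⟩ | ⟨b', u', h1, h2⟩ | ⟨b', u', h1, h2⟩
  · simp only [tpar, if_true] at h2
    rw [h2]
    refine .rt _ ?_
    rw [← h2]
    refine pt_of_lab H cx ?_ hl
    intro b u h h3
    rw [h2] at h3
    simp at h3
  · cases hy : y.1 with
    | nat b' u' h' =>
      rw [hy] at h2
      simp [tpar] at h2
    | cap b' u' h' =>
      rw [hy] at h2
      simp [tpar] at h2
    | rt =>
      rw [hy] at h2
      simp [tpar] at h2
    | pth b' u' j =>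
      have hpt : Pt N e c s M lm y.1 g' := by
        refine pt_of_lab H cx ?_ hl
        intro b u h h3
        rw [hy] at h3
        simp at h3
      rw [hy] at h2
      simp only [tpar] at h2
      split_ifs at h2 with hj
      rw [TH.pth.injEq] at h2
      obtain ⟨rfl, rfl, h3⟩ := h2
      have hrg : Rg N e c s (2 * N - 1) y.1 := by
        have hcls := H.cls.cls N e c s cx.par cx.ax cx.ch y.1 y.2
        rw [hy] at hcls ⊢
        rcases hcls with h | ⟨_, _, _, h⟩ | ⟨_, _, _, h⟩ | ⟨_, h⟩ | ⟨_, _, h⟩ | h | ⟨_, h⟩ |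
          ⟨_, _, h⟩ | ⟨_, _, h⟩ | ⟨_, _, _, _, h⟩
        · exact h
        · simp at h
        · simp at h
        · simp at h
        · simp only [TH.pth.injEq] at h
          omega
        · simp at h
        · simp at h
        · simp at h
        · simp at h
        · simp at h
      rw [← hy]
      exact .rg _ _ (rg_mono hrg) hpt
  · simp at h1
  · simp only [TH.pth.injEq] at h2
    omega

private theorem s_rt (H : Hy) (cx : Cx N e c s M lm) {x : TV N e c s} {g : W}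
    (hx : x.1 = .rt) (hg : Pt N e c s M lm x.1 g) :
    (∀ y, (TG N e c s).Adj x y → ∃ g', M.Adj g g' ∧ RR N e c s M lm y.1 g') ∧
    ∀ g', M.Adj g g' → ∃ y, (TG N e c s).Adj x y ∧ RR N e c s M lm y.1 g' := by
  obtain ⟨hN, he⟩ := cx.par
  refine step H cx hg ?_
  intro y g' hxy hgg hl
  rw [H.tok.adj N e c s cx.par cx.ax cx.ch, hx] at hxy
  rcases hxy with ⟨h1, h2⟩ | ⟨h1, h2⟩ | ⟨b', u', h1, h2⟩ | ⟨b', u', h1, h2⟩
  · simp [tlev] at h1
  · cases hy : y.1 with
    | nat b' u' h' =>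
      rw [hy] at h2
      simp [tpar] at h2
    | cap b' u' h' =>
      rw [hy] at h2
      simp [tpar] at h2
    | rt =>
      rw [hy] at h1
      simp [tlev] at h1
    | pth b' u' j =>
      have hpt : Pt N e c s M lm y.1 g' := by
        refine pt_of_lab H cx ?_ hl
        intro b u h h3
        rw [hy] at h3
        simp at h3
      rw [hy] at h2
      simp only [tpar] at h2
      split_ifs at h2 with hj
      subst hj
      have hrg := (H.cls.rg N e c s cx.par cx.ax cx.ch y.1 y.2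
        (Or.inr (Or.inr (Or.inr ⟨b', u', hy⟩)))).1
      rw [← hy]
      exact .rg _ _ hrg hpt
  · simp at h1
  · simp at h2

private theorem s_root (H : Hy) (cx : Cx N e c s M lm)
    (hpl : ∀ u g, Pt N e c s M lm (.nat true u (.core u)) g →
      (∀ w, c.G.Adj u w → ∃ g', M.Adj g g' ∧ Pt N e c s M lm (.nat true u (.core w)) g') ∧
      (∀ q, c.ow q = u → ∃ g', M.Adj g g' ∧ Pt N e c s M lm (.nat true u (.gho q 1)) g'))
    {x : TV N e c s} {g : W} {u : V}
    (hx : x.1 = .nat true u (.core u)) (hg : Pt N e c s M lm x.1 g) :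
    (∀ y, (TG N e c s).Adj x y → ∃ g', M.Adj g g' ∧ RR N e c s M lm y.1 g') ∧
    ∀ g', M.Adj g g' → ∃ y, (TG N e c s).Adj x y ∧ RR N e c s M lm y.1 g' := by
  obtain ⟨hN, he⟩ := cx.par
  refine step H cx hg ?_
  intro y g' hxy hgg hl
  rw [hx] at hg
  rcases nbrs H.tok cx.par cx.ax cx.ch hx hxy with ⟨h1, h2⟩ | ⟨h', h2, h3, h4⟩ | h2
  · exact absurd (lev_root u) h1
  · have hyok := y.2
    have hly : tL N e c s y = gl N e c h' := by
      unfold tL
      rw [h2]
      rfl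
    rw [hly] at hl
    rw [h2] at hyok
    rw [lev_root] at h3
    cases h' with
    | core z =>
      have huz : u ≠ z := by
        rintro rfl
        rw [lev_root] at h3
        omega
      have hadj : c.G.Adj u z := by
        simp only [pb] at h4
        split_ifs at h4
        rw [GH.core.injEq] at h4
        have h5 := (cx.ch.pr u z huz).1
        rw [h4] at h5
        exact h5.symm
      obtain ⟨g2, h5, h6⟩ := (hpl u g hg).1 z hadj
      have h7 : g' = g2 := injM H cx g g' g2 hgg h5 (by rw [hl, pt_lab h6]; rfl)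
      rw [h2, h7]
      refine .rg _ _ ?_ h6
      exact (H.cls.rg N e c s cx.par cx.ax cx.ch _ hyok (Or.inl ⟨u, z, hadj, rfl⟩)).1
    | gho q j =>
      have hj1 := hyok.2.1.1
      simp only [pb, GH.dp] at h4
      split_ifs at h4 with hj
      rw [GH.core.injEq] at h4
      obtain rfl : j = 1 := by omega
      obtain ⟨g2, h5, h6⟩ := (hpl u g hg).2 q h4
      have h7 : g' = g2 := injM H cx g g' g2 hgg h5 (by rw [hl, pt_lab h6]; rfl)
      rw [h2, h7]
      refine .rg _ _ ?_ h6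
      exact (H.cls.rg N e c s cx.par cx.ax cx.ch _ hyok (Or.inr (Or.inl ⟨u, q, h4, rfl⟩))).1
    | tru z j =>
      have hj1 := hyok.2.1.1
      simp only [pb, GH.dp] at h4
      split_ifs at h4 with hj
      rw [GH.core.injEq] at h4
      obtain rfl : j = 1 := by omega
      subst h4
      obtain ⟨θ, h5, h6⟩ := th_ex H cx hg
      have h7 : g' = θ 1 := by
        refine injM H cx g g' (θ 1) hgg ?_ ?_
        · rw [← h6]
          exact h5.2.1 0 (by omega)
        · rw [hl, (h5.2.2.1 1 le_rfl (by omega)).1]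
      rw [h2, h7]
      exact .tru z θ 1 le_rfl (by omega) h5
    | fan z l =>
      simp [pb, GH.dp] at h4
  · exfalso
    have hyok := y.2
    rw [h2] at hyok
    have h5 := hyok.2.2.1
    rw [dep_true, lev_root] at h5
    omega

private theorem s_tru (H : Hy) (cx : Cx N e c s M lm) {x : TV N e c s} {u : V} {θ : ℕ → W} {j : ℕ}
    (hx : x.1 = .nat true u (.tru u j)) (hj : 1 ≤ j) (hj' : j < 2 * N)
    (hθ : IsTh N e c s M lm u θ) :
    (∀ y, (TG N e c s).Adj x y → ∃ g', M.Adj (θ j) g' ∧ RR N e c s M lm y.1 g') ∧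
    ∀ g', M.Adj (θ j) g' → ∃ y, (TG N e c s).Adj x y ∧ RR N e c s M lm y.1 g' := by
  obtain ⟨hN, he⟩ := cx.par
  have hxok := x.2
  rw [hx] at hxok
  have hpar : RR N e c s M lm (.nat true u (pb N e c s true u (.tru u j))) (θ (j - 1)) := by
    simp only [pb, GH.dp]
    split_ifs with h1
    · obtain rfl : j = 1 := by omega
      exact .root _ _ hθ.1
    · exact .tru u θ (j - 1) (by omega) (by omega) hθ
  have hadj : M.Adj (θ j) (θ (j - 1)) := by
    have h1 := hθ.2.1 (j - 1) (by omega)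
    rw [show j - 1 + 1 = j by omega] at h1
    exact h1.symm
  constructor
  · intro y hxy
    rcases nbrs H.tok cx.par cx.ax cx.ch hx hxy with ⟨h1, h2⟩ | ⟨h', h2, h3, h4⟩ | h2
    · rw [h2]
      exact ⟨_, hadj, hpar⟩
    · have hyok := y.2
      rw [h2] at hyok
      cases h' with
      | core z =>
        simp only [pb] at h4
        split_ifs at h4
      | gho q i =>
        simp only [pb, GH.dp] at h4
        split_ifs at h4
      | tru z i =>
        simp only [pb, GH.dp] at h4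
        split_ifs at h4 with h5
        rw [GH.tru.injEq] at h4
        obtain ⟨rfl, h6⟩ := h4
        have h7 := hyok.2.1.2
        obtain rfl : i = j + 1 := by omega
        rw [h2]
        exact ⟨_, hθ.2.1 j (by omega), .tru z θ (j + 1) (by omega) h7 hθ⟩
      | fan z l =>
        simp only [pb, GH.dp] at h4
        rw [GH.tru.injEq] at h4
        obtain ⟨rfl, h6⟩ := h4
        obtain ⟨φ, h7, h8, h9, h10⟩ := hθ.2.2.2 l hyok.2.1
        rw [h2]
        subst h6
        exact ⟨φ, h7, .fan z θ l φ hyok.2.1 hθ h7 h8 h9⟩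
    · exfalso
      have hyok := y.2
      rw [h2] at hyok
      have h5 := hyok.2.2.1
      rw [dep_true, lev_tru] at h5
      omega
  · intro g' hgg
    rcases (hθ.2.2.1 j hj hj').2 g' hgg with h1 | ⟨h1, h2⟩ | ⟨h1, h2, h3⟩
    · have hl : tlev N c x.1 ≠ 0 := by
        rw [hx]
        simp only [tlev, lev_tru]
        omega
      have hok := (H.tok.ok N e c s cx.par cx.ax cx.ch x.1 x.2 hl).1
      refine ⟨⟨_, hok⟩, adj_par H.tok cx.par cx.ax cx.ch hl rfl, ?_⟩
      rw [h1]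
      change RR N e c s M lm (tpar N e c s x.1) (θ (j - 1))
      rw [hx]
      exact hpar
    · have hok : okT N e c s (.nat true u (.tru u (j + 1))) := by
        refine ⟨hxok.1, ⟨by omega, by omega⟩, Or.inl ?_⟩
        rw [lev_tru, dep_true]
        omega
      refine ⟨⟨_, hok⟩, ?_, ?_⟩
      · refine (adj_par H.tok cx.par cx.ax cx.ch (x := ⟨_, hok⟩) (y := x) ?_ ?_).symm
        · simp only [tlev, lev_tru]
          omega
        · rw [hx]
          simp only [tpar, pb, GH.dp]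
          rw [if_neg (by omega)]
          rfl
      · rw [h2]
        exact .tru u θ (j + 1) (by omega) (by omega) hθ
    · have hok : okT N e c s (.nat true u (.fan u (lm g'))) := by
        refine ⟨hxok.1, h2, Or.inl ?_⟩
        rw [lev_fan, dep_true]
      refine ⟨⟨_, hok⟩, ?_, ?_⟩
      · refine (adj_par H.tok cx.par cx.ax cx.ch (x := ⟨_, hok⟩) (y := x) ?_ ?_).symm
        · simp only [tlev, lev_fan]
          omega
        · rw [hx, h1]
          rfl
      · refine .fan u θ _ g' h2 hθ ?_ rfl ?_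
        · rw [← h1]
          exact hgg
        · rw [show 2 * N - 2 = j - 1 by omega]
          exact h3

private theorem s_fan (H : Hy) (cx : Cx N e c s M lm) {x : TV N e c s} {u : V} {θ : ℕ → W}
    {l : Finset (Kd N Λ B FB)} {g : W}
    (hx : x.1 = .nat true u (.fan u l)) (hl : okG N e c (.fan u l))
    (hθ : IsTh N e c s M lm u θ) (h1 : M.Adj (θ (2 * N - 1)) g) (h2 : lm g = l) :
    (∀ y, (TG N e c s).Adj x y → ∃ g', M.Adj g g' ∧ RR N e c s M lm y.1 g') ∧
    ∀ g', M.Adj g g' → ∃ y, (TG N e c s).Adj x y ∧ RR N e c s M lm y.1 g' := by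
  obtain ⟨hN, he⟩ := cx.par
  constructor
  · intro y hxy
    rcases nbrs H.tok cx.par cx.ax cx.ch hx hxy with ⟨h4, h5⟩ | ⟨h', h5, h6, h7⟩ | h5
    · rw [h5]
      exact ⟨_, h1.symm, .tru u θ (2 * N - 1) (by omega) (by omega) hθ⟩
    · exfalso
      cases h' with
      | core z =>
        simp only [pb] at h7
        split_ifs at h7
      | gho q i =>
        simp only [pb, GH.dp] at h7
        split_ifs at h7
      | tru z i =>
        simp only [pb, GH.dp] at h7
        split_ifs at h7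
      | fan z l' =>
        simp [pb, GH.dp] at h7
    · exfalso
      have hyok := y.2
      rw [h5] at hyok
      exact hyok.2.2.2.1 rfl l rfl
  · intro g' hgg
    obtain ⟨φ, h4, h5, h6, h7⟩ := hθ.2.2.2 l hl
    obtain rfl : g = φ := injM H cx _ _ _ h1 h4 (h2.trans h5.symm)
    have hlv : tlev N c x.1 ≠ 0 := by
      rw [hx]
      simp only [tlev, lev_fan]
      omega
    have hok := (H.tok.ok N e c s cx.par cx.ax cx.ch x.1 x.2 hlv).1
    refine ⟨⟨_, hok⟩, adj_par H.tok cx.par cx.ax cx.ch hlv rfl, ?_⟩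
    rw [h7 g' hgg]
    change RR N e c s M lm (tpar N e c s x.1) _
    rw [hx]
    exact .tru u θ (2 * N - 1) (by omega) (by omega) hθ

private theorem s_gho (H : Hy) (cx : Cx N e c s M lm) {x : TV N e c s} {q : Q} {γ : ℕ → W} {j : ℕ}
    (hx : x.1 = .nat false (c.ow q) (.gho q j)) (hj : 1 ≤ j) (hj' : j ≤ 2 * N)
    (hγ : IsGa N e c s M lm q γ) :
    (∀ y, (TG N e c s).Adj x y → ∃ g', M.Adj (γ j) g' ∧ RR N e c s M lm y.1 g') ∧
    ∀ g', M.Adj (γ j) g' → ∃ y, (TG N e c s).Adj x y ∧ RR N e c s M lm y.1 g' := by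
  obtain ⟨hN, he⟩ := cx.par
  have hxok := x.2
  rw [hx] at hxok
  have hpar : RR N e c s M lm (.nat false (c.ow q) (pb N e c s false (c.ow q) (.gho q j)))
      (γ (j - 1)) := by
    simp only [pb, GH.dp]
    split_ifs with h1
    · obtain rfl : j = 1 := by omega
      refine .rg _ _ ?_ hγ.1
      exact (H.cls.rg N e c s cx.par cx.ax cx.ch _ hγ.1.1
        (Or.inr (Or.inr (Or.inl ⟨_, rfl⟩)))).1
    · exact .gho q γ (j - 1) (by omega) (by omega) hγ
  have hadj : M.Adj (γ j) (γ (j - 1)) := by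
    have h1 := hγ.2.1 (j - 1) (by omega)
    rw [show j - 1 + 1 = j by omega] at h1
    exact h1.symm
  constructor
  · intro y hxy
    rcases nbrs H.tok cx.par cx.ax cx.ch hx hxy with ⟨h1, h2⟩ | ⟨h', h2, h3, h4⟩ | h2
    · rw [h2]
      exact ⟨_, hadj, hpar⟩
    · have hyok := y.2
      rw [h2] at hyok
      cases h' with
      | core z =>
        simp [pb] at h4
      | gho q' i =>
        simp only [pb, GH.dp] at h4
        split_ifs at h4 with h5
        rw [GH.gho.injEq] at h4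
        obtain ⟨rfl, h6⟩ := h4
        have h7 := hyok.2.1.2
        obtain rfl : i = j + 1 := by omega
        rw [h2]
        exact ⟨_, hγ.2.1 j (by omega), .gho q' γ (j + 1) (by omega) h7 hγ⟩
      | tru z i =>
        simp only [pb, GH.dp] at h4
        split_ifs at h4
      | fan z l =>
        simp [pb, GH.dp] at h4
    · exfalso
      have hyok := y.2
      rw [h2] at hyok
      exact hyok.2.2.2.2 rfl q j rfl rfl
  · intro g' hgg
    rcases (hγ.2.2 j hj hj').2 g' hgg with h1 | ⟨h1, h2⟩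
    · have hl : tlev N c x.1 ≠ 0 := by
        rw [hx]
        simp only [tlev, lev_gho]
        omega
      have hok := (H.tok.ok N e c s cx.par cx.ax cx.ch x.1 x.2 hl).1
      refine ⟨⟨_, hok⟩, adj_par H.tok cx.par cx.ax cx.ch hl rfl, ?_⟩
      rw [h1]
      change RR N e c s M lm (tpar N e c s x.1) (γ (j - 1))
      rw [hx]
      exact hpar
    · have hok : okT N e c s (.nat false (c.ow q) (.gho q (j + 1))) := by
        refine ⟨hxok.1, ⟨by omega, by omega⟩, ?_⟩
        rw [lev_gho, dep_false]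
        by_cases h3 : j + 1 = 2 * N
        · right
          exact ⟨rfl, q, rfl, by rw [h3]⟩
        · left
          omega
      refine ⟨⟨_, hok⟩, ?_, ?_⟩
      · refine (adj_par H.tok cx.par cx.ax cx.ch (x := ⟨_, hok⟩) (y := x) ?_ ?_).symm
        · simp only [tlev, lev_gho]
          omega
        · rw [hx]
          simp only [tpar, pb, GH.dp]
          rw [if_neg (by omega)]
          rfl
      · rw [h2]
        exact .gho q γ (j + 1) (by omega) (by omega) hγ

private theorem s_all (H : Hy) (cx : Cx N e c s M lm)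
    (hpl : ∀ u g, Pt N e c s M lm (.nat true u (.core u)) g →
      (∀ w, c.G.Adj u w → ∃ g', M.Adj g g' ∧ Pt N e c s M lm (.nat true u (.core w)) g') ∧
      (∀ q, c.ow q = u → ∃ g', M.Adj g g' ∧ Pt N e c s M lm (.nat true u (.gho q 1)) g'))
    (x : TV N e c s) (g : W) (hR : RR N e c s M lm x.1 g) :
    (∀ y, (TG N e c s).Adj x y → ∃ g', M.Adj g g' ∧ RR N e c s M lm y.1 g') ∧
    ∀ g', M.Adj g g' → ∃ y, (TG N e c s).Adj x y ∧ RR N e c s M lm y.1 g' := by
  generalize hx : x.1 = t at hR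
  cases hR with
  | rg _ _ h hg =>
    have hcls := H.cls.cls N e c s cx.par cx.ax cx.ch x.1 x.2
    have hfree := H.cls.free N e c s cx.par cx.ax cx.ch x.1 x.2
    rw [hx] at hcls hfree
    have hg' : Pt N e c s M lm x.1 g := by rw [hx]; exact hg
    rcases hcls with h1 | ⟨u, w, h1, h2⟩ | ⟨u, q, h1, h2⟩ | ⟨u, h2⟩ | ⟨b, u, h2⟩ | h2
    · exact s_strong H cx (by rw [hx]; exact h1) hg'
    · exact s_bnd H cx (Or.inl ⟨w, h1, rfl⟩) (hx.trans h2) hg'
    · exact s_bnd H cx (Or.inr ⟨q, h1, rfl⟩) (hx.trans h2) hg'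
    · exact s_rf H cx (hx.trans h2) hg'
    · exact s_pth H cx (hx.trans h2) hg'
    · exact absurd h (hfree h2)
  | rt _ hg => exact s_rt H cx hx (by rw [hx]; exact hg)
  | root u _ hg => exact s_root H cx hpl hx (by rw [hx]; exact hg)
  | tru u θ j hj hj' hθ => exact s_tru H cx hx hj hj' hθ
  | fan u θ l _ hl hθ h1 h2 h3 => exact s_fan H cx hx hl hθ h1 h2
  | gho q γ j hj hj' hγ => exact s_gho H cx hx hj hj' hγ

/-! ## Totality -/

private theorem tot1 (H : Hy) (cx : Cx N e c s M lm) (x : TV N e c s) :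
    ∃ g, RR N e c s M lm x.1 g := by
  obtain ⟨hN, he⟩ := cx.par
  have hok := x.2
  have hex := (H.minj.ex N e c s M lm cx).2
  have hrg := H.cls.rg N e c s cx.par cx.ax cx.ch x.1 x.2
  have hcls := H.cls.cls N e c s cx.par cx.ax cx.ch x.1 x.2
  obtain ⟨g, hg⟩ := hex x.1 hok
  rcases hcls with h | h | h | h | h | h | ⟨u, h⟩ | ⟨u, j, h⟩ | ⟨u, l, h⟩ | ⟨u, q, j, h1, h⟩
  · exact ⟨g, .rg _ _ (rg_mono h) hg⟩
  · exact ⟨g, .rg _ _ (hrg (Or.inl h)).1 hg⟩
  · exact ⟨g, .rg _ _ (hrg (Or.inr (Or.inl h))).1 hg⟩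
  · exact ⟨g, .rg _ _ (hrg (Or.inr (Or.inr (Or.inl h)))).1 hg⟩
  · exact ⟨g, .rg _ _ (hrg (Or.inr (Or.inr (Or.inr h)))).1 hg⟩
  · rw [h] at hg ⊢
    exact ⟨g, .rt _ hg⟩
  · rw [h] at hg ⊢
    exact ⟨g, .root _ _ hg⟩
  · rw [h] at hok ⊢
    have h2 : okT N e c s (.nat true u (.core u)) :=
      ⟨hok.1, trivial, Or.inl (by rw [lev_root]; exact Nat.zero_le _)⟩
    obtain ⟨g0, hg0⟩ := hex _ h2
    obtain ⟨θ, h3, _⟩ := th_ex H cx hg0
    exact ⟨_, .tru u θ j hok.2.1.1 hok.2.1.2 h3⟩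
  · rw [h] at hok ⊢
    have h2 : okT N e c s (.nat true u (.core u)) :=
      ⟨hok.1, trivial, Or.inl (by rw [lev_root]; exact Nat.zero_le _)⟩
    obtain ⟨g0, hg0⟩ := hex _ h2
    obtain ⟨θ, h3, _⟩ := th_ex H cx hg0
    obtain ⟨φ, h7, h8, h9, h10⟩ := h3.2.2.2 l hok.2.1
    exact ⟨φ, .fan u θ l φ hok.2.1 h3 h7 h8 h9⟩
  · subst h1
    rw [h] at hok ⊢
    have h2 : okT N e c s (.nat false (c.ow q) (.core (c.ow q))) :=
      ⟨hok.1, trivial, Or.inl (by rw [lev_root]; exact Nat.zero_le _)⟩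
    have h3 : okT N e c s (.nat false (c.ow q) (.gho q 1)) :=
      ⟨hok.1, ⟨le_rfl, by omega⟩, Or.inl (by rw [lev_gho, dep_false]; omega)⟩
    obtain ⟨g0, hg0⟩ := hex _ h2
    have hadj : (TG N e c s).Adj ⟨_, h2⟩ ⟨_, h3⟩ := by
      refine (adj_par H.tok cx.par cx.ax cx.ch (x := ⟨_, h3⟩) (y := ⟨_, h2⟩) ?_ ?_).symm
      · simp only [tlev, lev_gho]
        omega
      · simp [tpar, pb, GH.dp]
    obtain ⟨g', ⟨h4, h5⟩, _⟩ := (H.minj.nbr N e c s M lm cx ⟨_, h2⟩ g0 hg0).2.1 _ hadj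
    obtain ⟨γ, h6, _, _⟩ := ga_ex H cx hg0 h4 h5
    exact ⟨_, .gho q γ j hok.2.1.1 hok.2.1.2 h6⟩

private theorem good_or (H : Hy) (cx : Cx N e c s M lm) (t : TH V Q (Kd N Λ B FB)) (g : W)
    (hg : Pt N e c s M lm t g) : (∃ x : TV N e c s, RR N e c s M lm x.1 g) ∨
    (∃ u j, t = .nat true u (.tru u j)) ∨ (∃ u l, t = .nat true u (.fan u l)) ∨
    ∃ q j, t = .nat false (c.ow q) (.gho q j) := by
  have hok := hg.1
  have hrg := H.cls.rg N e c s cx.par cx.ax cx.ch t hok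
  have hcls := H.cls.cls N e c s cx.par cx.ax cx.ch t hok
  rcases hcls with h | h | h | h | h | h | ⟨u, h⟩ | ⟨u, j, h⟩ | ⟨u, l, h⟩ | ⟨u, q, j, h1, h⟩
  · exact Or.inl ⟨⟨t, hok⟩, .rg _ _ (rg_mono h) hg⟩
  · exact Or.inl ⟨⟨t, hok⟩, .rg _ _ (hrg (Or.inl h)).1 hg⟩
  · exact Or.inl ⟨⟨t, hok⟩, .rg _ _ (hrg (Or.inr (Or.inl h))).1 hg⟩
  · exact Or.inl ⟨⟨t, hok⟩, .rg _ _ (hrg (Or.inr (Or.inr (Or.inl h)))).1 hg⟩
  · exact Or.inl ⟨⟨t, hok⟩, .rg _ _ (hrg (Or.inr (Or.inr (Or.inr h)))).1 hg⟩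
  · subst h
    exact Or.inl ⟨⟨_, hok⟩, .rt _ hg⟩
  · subst h
    exact Or.inl ⟨⟨_, hok⟩, .root _ _ hg⟩
  · exact Or.inr (Or.inl ⟨u, j, h⟩)
  · exact Or.inr (Or.inr (Or.inl ⟨u, l, h⟩))
  · subst h1
    exact Or.inr (Or.inr (Or.inr ⟨q, j, h⟩))

private theorem fan_lab (H : Hy) (cx : Cx N e c s M lm) {u : V} {l : Finset (Kd N Λ B FB)}
    {g g' : W} (hg : Pt N e c s M lm (.nat true u (.fan u l)) g) (hgg : M.Adj g g') :
    lm g' = gl N e c (.tru u (2 * N - 1) : GH V Q (Kd N Λ B FB)) := by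
  obtain ⟨y, ⟨hxy, h2⟩, _⟩ := (H.minj.nbr N e c s M lm cx ⟨_, hg.1⟩ g hg).2.2 g' hgg
  rw [← h2]
  unfold tL
  rcases nbrs H.tok cx.par cx.ax cx.ch (x := ⟨_, hg.1⟩) rfl hxy with
    ⟨h4, h5⟩ | ⟨h', h5, h6, h7⟩ | h5
  · rw [h5]
    rfl
  · exfalso
    cases h' with
    | core z =>
      simp only [pb] at h7
      split_ifs at h7
    | gho q i =>
      simp only [pb, GH.dp] at h7
      split_ifs at h7
    | tru z i =>
      simp only [pb, GH.dp] at h7
      split_ifs at h7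
    | fan z l' =>
      simp [pb, GH.dp] at h7
  · exfalso
    have hyok := y.2
    rw [h5] at hyok
    exact hyok.2.2.2.1 rfl l rfl

private theorem fan_uniq (H : Hy) (cx : Cx N e c s M lm) {u : V} {l : Finset (Kd N Λ B FB)}
    {g g' g2 : W} (hg : Pt N e c s M lm (.nat true u (.fan u l)) g) (hgg : M.Adj g g')
    (hgg2 : M.Adj g g2) : g' = g2 :=
  injM H cx g g' g2 hgg hgg2 ((fan_lab H cx hg hgg).trans (fan_lab H cx hg hgg2).symm)

private theorem good_tru (H : Hy) (cx : Cx N e c s M lm)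
    (ha : ∀ g g' : W, (∃ x : TV N e c s, RR N e c s M lm x.1 g) → M.Adj g g' →
      ∃ x : TV N e c s, RR N e c s M lm x.1 g') :
    ∀ (j : ℕ) (u : V) (g : W), Pt N e c s M lm (.nat true u (.tru u j)) g →
    ∃ x : TV N e c s, RR N e c s M lm x.1 g := by
  obtain ⟨hN, he⟩ := cx.par
  intro j
  induction j using Nat.strong_induction_on with
  | _ j ih =>
  intro u g hg
  have hok := hg.1
  have hj1 := hok.2.1.1
  have hj2 := hok.2.1.2
  have hlv : tlev N c (.nat true u (.tru u j) : TH V Q (Kd N Λ B FB)) ≠ 0 := by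
    simp only [tlev, lev_tru]
    omega
  have hok2 := (H.tok.ok N e c s cx.par cx.ax cx.ch _ hok hlv).1
  have hadj : (TG N e c s).Adj ⟨_, hok⟩ ⟨_, hok2⟩ :=
    adj_par H.tok cx.par cx.ax cx.ch (x := ⟨_, hok⟩) (y := ⟨_, hok2⟩) hlv rfl
  obtain ⟨g', ⟨h4, h5⟩, _⟩ := (H.minj.nbr N e c s M lm cx ⟨_, hok⟩ g hg).2.1 _ hadj
  refine ha g' g ?_ h4.symm
  have h5' : lm g' = gl N e c (pb N e c s true u (.tru u j : GH V Q (Kd N Λ B FB))) := h5
  simp only [pb, GH.dp] at h5'
  obtain ⟨t, ht⟩ := (H.minj.ex N e c s M lm cx).1 g'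
  have htl := pt_lab ht
  rcases good_or H cx t g' ht with h6 | ⟨u1, j1, rfl⟩ | ⟨u1, l1, rfl⟩ | ⟨q1, j1, rfl⟩
  · exact h6
  · have h7 : lm g' = gl N e c (.tru u1 j1 : GH V Q (Kd N Λ B FB)) := htl
    have h8 := ht.1.2.1.2
    rw [h7] at h5'
    split_ifs at h5' with h9
    · exact (lab_core_tru h5'.symm).elim
    · obtain ⟨_, h10⟩ := lab_tru (by omega) (by omega) h5'
      exact ih j1 (by omega) u1 g' ht
  · exfalso
    have h7 := fan_lab H cx ht h4.symm
    have h8 : lm g = gl N e c (.tru u j : GH V Q (Kd N Λ B FB)) := pt_lab hg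
    rw [h8] at h7
    obtain ⟨h9, h10⟩ := lab_tru (by omega) (by omega) h7
    rw [if_neg (by omega)] at h5'
    have h11 : l1 = lm g' := htl.symm
    apply ht.1.2.1.2 (j - 1) (by omega) (by omega)
    rw [h11, h5']
    simp only [gl, h9]
  · exfalso
    have h7 : lm g' = gl N e c (.gho q1 j1 : GH V Q (Kd N Λ B FB)) := htl
    rw [h7] at h5'
    split_ifs at h5' with h9
    · exact lab_core_gho cx.par cx.ax h5'.symm
    · exact lab_gho_tru h5'

private theorem good_fan (H : Hy) (cx : Cx N e c s M lm)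
    (ha : ∀ g g' : W, (∃ x : TV N e c s, RR N e c s M lm x.1 g) → M.Adj g g' →
      ∃ x : TV N e c s, RR N e c s M lm x.1 g')
    (u : V) (l : Finset (Kd N Λ B FB)) (g : W) (hg : Pt N e c s M lm (.nat true u (.fan u l)) g) :
    ∃ x : TV N e c s, RR N e c s M lm x.1 g := by
  obtain ⟨hN, he⟩ := cx.par
  have hok := hg.1
  have hlv : tlev N c (.nat true u (.fan u l) : TH V Q (Kd N Λ B FB)) ≠ 0 := by
    simp only [tlev, lev_fan]
    omega
  have hok2 : okT N e c s (.nat true u (.tru u (2 * N - 1))) :=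
    (H.tok.ok N e c s cx.par cx.ax cx.ch _ hok hlv).1
  have hadj : (TG N e c s).Adj ⟨_, hok⟩ ⟨_, hok2⟩ :=
    adj_par H.tok cx.par cx.ax cx.ch (x := ⟨_, hok⟩) (y := ⟨_, hok2⟩) hlv rfl
  have hlv2 : tlev N c (.nat true u (.tru u (2 * N - 1)) : TH V Q (Kd N Λ B FB)) ≠ 0 := by
    simp only [tlev, lev_tru]
    omega
  have hok3 : okT N e c s (.nat true u (.tru u (2 * N - 2))) := by
    refine ⟨hok.1, ⟨by omega, by omega⟩, Or.inl ?_⟩
    rw [lev_tru, dep_true]
    omega
  have hadj2 : (TG N e c s).Adj ⟨_, hok2⟩ ⟨_, hok3⟩ := by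
    refine adj_par H.tok cx.par cx.ax cx.ch (x := ⟨_, hok2⟩) (y := ⟨_, hok3⟩) hlv2 ?_
    simp only [tpar, pb, GH.dp]
    rw [if_neg (by omega)]
    congr 2
  obtain ⟨g', ⟨h4, h5⟩, _⟩ := (H.minj.nbr N e c s M lm cx ⟨_, hok⟩ g hg).2.1 _ hadj
  refine ha g' g ?_ h4.symm
  have h5' : lm g' = gl N e c (.tru u (2 * N - 1) : GH V Q (Kd N Λ B FB)) := h5
  obtain ⟨t, ht⟩ := (H.minj.ex N e c s M lm cx).1 g'
  have htl := pt_lab ht
  rcases good_or H cx t g' ht with h6 | ⟨u1, j1, rfl⟩ | ⟨u1, l1, rfl⟩ | ⟨q1, j1, rfl⟩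
  · exact h6
  · exact good_tru H cx ha j1 u1 g' ht
  · exfalso
    obtain ⟨_, hdr⟩ := hg
    obtain ⟨g2, hp1, hp2, hp3, hp4⟩ := hdr.2.1 ⟨_, hok3⟩
    have hT : (TG N e c s).edist ⟨_, hok⟩ ⟨_, hok3⟩ ≤ 2 := by
      refine (SimpleGraph.edist_triangle (v := ⟨_, hok2⟩)).trans ?_
      rw [SimpleGraph.edist_eq_one_iff_adj.2 hadj, SimpleGraph.edist_eq_one_iff_adj.2 hadj2]
      norm_num
    have hne : (TG N e c s).edist ⟨_, hok⟩ ⟨_, hok3⟩ ≠ ⊤ := by
      intro h
      rw [h] at hT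
      exact absurd hT (by simp)
    obtain ⟨d, hd⟩ := WithTop.ne_top_iff_exists.1 hne
    have hd' : (TG N e c s).edist ⟨_, hok⟩ ⟨_, hok3⟩ = (d : ℕ∞) := hd.symm
    have hd2 : d ≤ 2 := by
      rw [hd'] at hT
      exact_mod_cast hT
    have hMd := (hp3 d (by omega)).1 hd'
    have hgne : g ≠ g2 := by
      intro h
      have h7 := hp2.2 h
      have h8 := congrArg Subtype.val h7
      simp at h8
    have hne2 : M.edist g g2 ≠ ⊤ := by
      rw [hMd]
      exact WithTop.coe_ne_top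
    obtain ⟨w, hw⟩ := SimpleGraph.exists_walk_of_edist_ne_top hne2
    rw [hMd] at hw
    have hw2 : w.length ≤ 2 := by
      have : w.length = d := by exact_mod_cast hw
      omega
    cases w with
    | nil => exact hgne rfl
    | @cons _ a _ hga w' =>
      obtain rfl : a = g' := fan_uniq H cx ⟨hok, hdr⟩ hga h4
      cases w' with
      | nil =>
        have h7 : gl N e c (.tru u (2 * N - 2) : GH V Q (Kd N Λ B FB)) = lm g2 := hp1
        rw [h5'] at h7
        have h8 := lab_tru (by omega) (by omega) h7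
        omega
      | @cons _ b _ hab w'' =>
        have h7 : b = g := fan_uniq H cx ht hab h4.symm
        cases w'' with
        | nil => exact hgne h7.symm
        | cons h8 w3 =>
          simp only [SimpleGraph.Walk.length_cons] at hw2
          omega
  · exfalso
    have h7 : lm g' = gl N e c (.gho q1 j1 : GH V Q (Kd N Λ B FB)) := htl
    rw [h7] at h5'
    exact lab_gho_tru h5'

private theorem good_gho (H : Hy) (cx : Cx N e c s M lm)
    (ha : ∀ g g' : W, (∃ x : TV N e c s, RR N e c s M lm x.1 g) → M.Adj g g' →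
      ∃ x : TV N e c s, RR N e c s M lm x.1 g') :
    ∀ (j : ℕ) (q : Q) (g : W), Pt N e c s M lm (.nat false (c.ow q) (.gho q j)) g →
    ∃ x : TV N e c s, RR N e c s M lm x.1 g := by
  obtain ⟨hN, he⟩ := cx.par
  intro j
  induction j using Nat.strong_induction_on with
  | _ j ih =>
  intro q g hg
  have hok := hg.1
  have hj1 := hok.2.1.1
  have hj2 := hok.2.1.2
  have hlv : tlev N c (.nat false (c.ow q) (.gho q j) : TH V Q (Kd N Λ B FB)) ≠ 0 := by
    simp only [tlev, lev_gho]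
    omega
  have hok2 := (H.tok.ok N e c s cx.par cx.ax cx.ch _ hok hlv).1
  have hadj : (TG N e c s).Adj ⟨_, hok⟩ ⟨_, hok2⟩ :=
    adj_par H.tok cx.par cx.ax cx.ch (x := ⟨_, hok⟩) (y := ⟨_, hok2⟩) hlv rfl
  obtain ⟨g', ⟨h4, h5⟩, _⟩ := (H.minj.nbr N e c s M lm cx ⟨_, hok⟩ g hg).2.1 _ hadj
  refine ha g' g ?_ h4.symm
  have h5' : lm g' = gl N e c (pb N e c s false (c.ow q) (.gho q j : GH V Q (Kd N Λ B FB))) := h5
  simp only [pb, GH.dp] at h5'
  obtain ⟨t, ht⟩ := (H.minj.ex N e c s M lm cx).1 g'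
  have htl := pt_lab ht
  rcases good_or H cx t g' ht with h6 | ⟨u1, j1, rfl⟩ | ⟨u1, l1, rfl⟩ | ⟨q1, j1, rfl⟩
  · exact h6
  · exfalso
    have h7 : lm g' = gl N e c (.tru u1 j1 : GH V Q (Kd N Λ B FB)) := htl
    rw [h7] at h5'
    split_ifs at h5' with h9
    · exact lab_core_tru h5'.symm
    · exact lab_gho_tru h5'.symm
  · exfalso
    have h7 := fan_lab H cx ht h4.symm
    have h8 : lm g = gl N e c (.gho q j : GH V Q (Kd N Λ B FB)) := pt_lab hg
    rw [h8] at h7
    exact lab_gho_tru h7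
  · have h7 : lm g' = gl N e c (.gho q1 j1 : GH V Q (Kd N Λ B FB)) := htl
    have h8 := ht.1.2.1.2
    rw [h7] at h5'
    split_ifs at h5' with h9
    · exact (lab_core_gho cx.par cx.ax h5'.symm).elim
    · have h10 := lab_gho (by omega) (by omega) (by omega) h5'
      exact ih j1 (by omega) q1 g' ht

private theorem main (H : Hy) (cx : Cx N e c s M lm)
    (hpl : ∀ u g, Pt N e c s M lm (.nat true u (.core u)) g →
      (∀ w, c.G.Adj u w → ∃ g', M.Adj g g' ∧ Pt N e c s M lm (.nat true u (.core w)) g') ∧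
      (∀ q, c.ow q = u → ∃ g', M.Adj g g' ∧ Pt N e c s M lm (.nat true u (.gho q 1)) g')) :
    ∃ φ : TG N e c s ≃g M, ∀ x, lm (φ x) = tL N e c s x := by
  have hok : okT N e c s .rt := trivial
  have ha : ∀ g g' : W, (∃ x : TV N e c s, RR N e c s M lm x.1 g) → M.Adj g g' →
      ∃ x : TV N e c s, RR N e c s M lm x.1 g' := by
    rintro g g' ⟨x, hx⟩ hgg
    obtain ⟨y, _, hy⟩ := (s_all H cx hpl x g hx).2 g' hgg
    exact ⟨y, hy⟩
  refine bisim (TG N e c s) (tL N e c s) M lm (fun x g => RR N e c s M lm x.1 g) ⟨_, hok⟩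
    ?_ ?_ ?_ ?_ ?_ ?_ ?_ ?_ ?_ ?_
  · intro x g h
    exact rr_lab h
  · intro x g y h hxy
    exact (s_all H cx hpl x g h).1 y hxy
  · intro x g g' h hgg
    exact (s_all H cx hpl x g h).2 g' hgg
  · exact tot1 H cx
  · intro g
    obtain ⟨t, ht⟩ := (H.minj.ex N e c s M lm cx).1 g
    rcases good_or H cx t g ht with h6 | ⟨u1, j1, rfl⟩ | ⟨u1, l1, rfl⟩ | ⟨q1, j1, rfl⟩
    · exact h6
    · exact good_tru H cx ha j1 u1 g ht
    · exact good_fan H cx ha u1 l1 g ht
    · exact good_gho H cx ha j1 q1 g ht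
  · exact injT H cx
  · exact injM H cx
  · intro x hx
    exact (H.tinj.cap N e c s cx.par cx.ax cx.ch ⟨_, hok⟩ x hx.symm (by simp)).symm
  · intro g g' h h'
    exact (H.minj.uni N e c s M lm cx ⟨_, hok⟩ (by simp)).unique h h'
  · intro x
    exact (H.tree N e c s cx.par cx.ax cx.ch).connected.preconnected x _

end

/-- If there are no open copies, the skeleton is the tree skeleton. -/
theorem pB2I (rg : StRg) (tinj : StTinj) (tsee : StTsee) (minj : StMinj) (cls : StCls)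
    (inner : StInner) (port : StPort) (gch : StGch) (tch : StTch) (tree : StTtree)
    (tok : StTok) (tdist : StTdist) (tpos : StTpos) : StB2I := by
  intro V Q Λ B FB W _ _ _ N e c s M lm cx hpl
  exact main ⟨rg, tinj, tsee, minj, cls, inner, port, gch, tch, tree, tok, tpos, tdist⟩ cx hpl

end Pool.Agent.Helper51.LD
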