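import Pool.Agent.Helper2.LD.St4

/-!
# LD project: distances in the tree skeleton
-/

set_option autoImplicit false

namespace Pool.Agent.Helper51.LD

open Pool.Agent.Helper2.LD

private theorem lip {X : Type} (G : SimpleGraph X) (h : X → ℕ)
    (hh : ∀ x y, G.Adj x y → h y ≤ h x + 1) {x y : X} (n : ℕ) (hn : G.edist x y ≤ (n : ℕ∞)) :
    h y ≤ h x + n := by
  have h1 : ∀ (x y : X) (w : G.Walk x y), h y ≤ h x + w.length := by
    intro x y w
    induction w with
    | nil => simp
    | cons hadj p ih =>
      rw [SimpleGraph.Walk.length_cons]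
      have := hh _ _ hadj
      omega
  have hne : G.edist x y ≠ ⊤ := by
    intro h2
    rw [h2] at hn
    exact absurd hn (by simp)
  obtain ⟨w, hw⟩ := SimpleGraph.exists_walk_of_edist_ne_top hne
  have := h1 x y w
  rw [← hw] at hn
  have h2 : w.length ≤ n := by exact_mod_cast hn
  omega

private theorem retr {X : Type} (G : SimpleGraph X) (S : Set X) (f : X → S)
    (hf : ∀ x : S, f x.1 = x)
    (hadj : ∀ x y, G.Adj x y → f x = f y ∨ (G.induce S).Adj (f x) (f y))
    (x y : S) : G.edist x.1 y.1 = (G.induce S).edist x y := by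
  apply le_antisymm
  · by_cases htop : (G.induce S).edist x y = ⊤
    · rw [htop]; exact le_top
    · obtain ⟨w, hw⟩ := SimpleGraph.exists_walk_of_edist_ne_top htop
      rw [← hw]
      have h1 : ∀ (x y : S) (w : (G.induce S).Walk x y), G.edist x.1 y.1 ≤ (w.length : ℕ∞) := by
        intro x y w
        induction w with
        | nil => simp
        | @cons a b c hab p ih =>
          have h2 : G.edist a.1 c.1 ≤ G.edist a.1 b.1 + G.edist b.1 c.1 :=
            SimpleGraph.edist_triangle
          have h3 : G.edist a.1 b.1 = 1 := SimpleGraph.edist_eq_one_iff_adj.2 hab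
          rw [h3] at h2
          rw [SimpleGraph.Walk.length_cons]
          refine h2.trans ?_
          push_cast
          rw [add_comm]
          exact add_le_add_left ih 1
      exact h1 x y w
  · by_cases htop : G.edist x.1 y.1 = ⊤
    · rw [htop]; exact le_top
    · obtain ⟨w, hw⟩ := SimpleGraph.exists_walk_of_edist_ne_top htop
      rw [← hw]
      have h1 : ∀ (x y : X) (w : G.Walk x y), (G.induce S).edist (f x) (f y) ≤ (w.length : ℕ∞) := by
        intro x y w
        induction w with
        | nil => simp
        | @cons a b c hab p ih =>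
          have h2 : (G.induce S).edist (f a) (f c) ≤ (G.induce S).edist (f a) (f b) +
              (G.induce S).edist (f b) (f c) := SimpleGraph.edist_triangle
          have h3 : (G.induce S).edist (f a) (f b) ≤ 1 := by
            rcases hadj a b hab with h3 | h3
            · rw [h3]; simp
            · exact (SimpleGraph.edist_eq_one_iff_adj.2 h3).le
          rw [SimpleGraph.Walk.length_cons]
          refine h2.trans ?_
          push_cast
          rw [add_comm]
          exact add_le_add ih h3
      have h4 := h1 x.1 y.1 w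
      rw [hf, hf] at h4
      exact h4

section

variable {V Q Λ B FB : Type} {N e : ℕ} {c : Core V Q Λ B FB} {s : Ch V Q}

private theorem it (tok : StTok) (hp : Par N e) (hc : CoreAx N e c) (hs : ChAx N c s)
    {x : TH V Q (Kd N Λ B FB)} (hx : okT N e c s x) :
    ∀ i, i ≤ tlev N c x → okT N e c s ((tpar N e c s)^[i] x) ∧
      tlev N c ((tpar N e c s)^[i] x) + i = tlev N c x ∧ pc ((tpar N e c s)^[i] x) = pc x := by
  intro i
  induction i with
  | zero => intro _; exact ⟨hx, rfl, rfl⟩
  | succ i ih =>
    intro hi
    obtain ⟨h1, h2, h3⟩ := ih (by omega)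
    rw [Function.iterate_succ_apply']
    obtain ⟨h4, h5, h6⟩ := tok.ok N e c s hp hc hs _ h1 (by omega)
    exact ⟨h4, by omega, h6.trans h3⟩

open Classical in
private noncomputable def pr' (tok : StTok) (hp : Par N e) (hc : CoreAx N e c) (hs : ChAx N c s)
    (o : Option (Bool × V)) (x : {x : TV N e c s // pc x.1 = o}) :
    {x : TV N e c s // pc x.1 = o} :=
  if h : tlev N c x.1.1 ≠ 0 then
    ⟨⟨tpar N e c s x.1.1, (tok.ok N e c s hp hc hs _ x.1.2 h).1⟩,
      ((tok.ok N e c s hp hc hs _ x.1.2 h).2.2).trans x.2⟩ else x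

private theorem pr'_val (tok : StTok) (hp : Par N e) (hc : CoreAx N e c) (hs : ChAx N c s)
    (o : Option (Bool × V)) (x : {x : TV N e c s // pc x.1 = o}) (h : tlev N c x.1.1 ≠ 0) :
    (pr' tok hp hc hs o x).1.1 = tpar N e c s x.1.1 := by
  unfold pr'
  rw [dif_pos h]

private theorem pr'_it (tok : StTok) (hp : Par N e) (hc : CoreAx N e c) (hs : ChAx N c s)
    (o : Option (Bool × V)) (x : {x : TV N e c s // pc x.1 = o}) :
    ∀ i, i ≤ tlev N c x.1.1 →
    ((pr' tok hp hc hs o)^[i] x).1.1 = (tpar N e c s)^[i] x.1.1 := by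
  intro i
  induction i with
  | zero => intro _; rfl
  | succ i ih =>
    intro hi
    rw [Function.iterate_succ_apply', Function.iterate_succ_apply']
    have h1 := ih (by omega)
    have h2 := it tok hp hc hs x.1.2 i (by omega)
    rw [pr'_val _ _ _ _ _ _ (by rw [h1]; omega), h1]

private theorem inn_aux (hF : StForest) (tok : StTok) (hp : Par N e) (hc : CoreAx N e c)
    (hs : ChAx N c s) (o : Option (Bool × V))
    (hE : ∀ x y : {x : TV N e c s | pc x.1 = o}, (TG N e c s).edist x.1 y.1 =
      ((TG N e c s).induce {x : TV N e c s | pc x.1 = o}).edist x y)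
    (x y : TV N e c s) (hx : pc x.1 = o) (hy : pc y.1 = o) (d : ℕ) :
    (TG N e c s).edist x y ≤ (d : ℕ∞) ↔ ∃ i j, i ≤ tlev N c x.1 ∧ j ≤ tlev N c y.1 ∧
      i + j ≤ d ∧ (tpar N e c s)^[i] x.1 = (tpar N e c s)^[j] y.1 := by
  have h1 := hE ⟨x, hx⟩ ⟨y, hy⟩
  change (TG N e c s).edist x y = _ at h1
  rw [h1]
  have hFo : Forest ((TG N e c s).induce {x : TV N e c s | pc x.1 = o})
      (fun x => tlev N c x.1.1) (pr' tok hp hc hs o) := by
    constructor
    · intro x y
      rw [SimpleGraph.comap_adj]
      change (TG N e c s).Adj x.1 y.1 ↔ _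
      rw [tok.adj N e c s hp hc hs]
      have hb : ∀ x y : {x : TV N e c s | pc x.1 = o}, ¬ Bdg N s x.1.1 y.1.1 := by
        rintro x y ⟨b, u, h2, h3⟩
        have h4 : pc x.1.1 = pc y.1.1 := x.2.trans y.2.symm
        rw [h2, h3] at h4
        simp [pc] at h4
      have hk : ∀ x y : {x : TV N e c s | pc x.1 = o},
          (tlev N c x.1.1 ≠ 0 ∧ y.1.1 = tpar N e c s x.1.1) ↔
          (tlev N c x.1.1 ≠ 0 ∧ y = pr' tok hp hc hs o x) := by
        intro x y
        constructor
        · rintro ⟨h2, h3⟩
          refine ⟨h2, ?_⟩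
          apply Subtype.ext
          apply Subtype.ext
          rw [pr'_val _ _ _ _ _ _ h2, h3]
        · rintro ⟨h2, h3⟩
          refine ⟨h2, ?_⟩
          rw [h3, pr'_val _ _ _ _ _ _ h2]
      rw [hk x y, hk y x]
      constructor
      · rintro (h | h | h | h)
        · exact Or.inl h
        · exact Or.inr h
        · exact absurd h (hb x y)
        · exact absurd h (hb y x)
      · rintro (h | h)
        · exact Or.inl h
        · exact Or.inr (Or.inl h)
    · intro x h
      change tlev N c x.1.1 ≠ 0 at h
      change tlev N c (pr' tok hp hc hs o x).1.1 + 1 = tlev N c x.1.1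
      rw [pr'_val _ _ _ _ _ _ h]
      exact (tok.ok N e c s hp hc hs _ x.1.2 h).2.1
  rw [hF _ _ _ hFo]
  constructor
  · rintro ⟨i, j, hi, hj, hij, h⟩
    refine ⟨i, j, hi, hj, hij, ?_⟩
    have h2 := congrArg (fun z => z.1.1) h
    change ((pr' tok hp hc hs o)^[i] ⟨x, hx⟩).1.1 = ((pr' tok hp hc hs o)^[j] ⟨y, hy⟩).1.1 at h2
    rw [pr'_it tok hp hc hs o ⟨x, hx⟩ i hi, pr'_it tok hp hc hs o ⟨y, hy⟩ j hj] at h2
    exact h2
  · rintro ⟨i, j, hi, hj, hij, h⟩
    refine ⟨i, j, hi, hj, hij, ?_⟩
    apply Subtype.ext
    apply Subtype.ext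
    change ((pr' tok hp hc hs o)^[i] ⟨x, hx⟩).1.1 = ((pr' tok hp hc hs o)^[j] ⟨y, hy⟩).1.1
    rw [pr'_it tok hp hc hs o ⟨x, hx⟩ i hi, pr'_it tok hp hc hs o ⟨y, hy⟩ j hj]
    exact h

private theorem rpu {b : Bool} {u : V} {x : TV N e c s} (h : pc x.1 = some (b, u)) :
    s.rp u = u := by
  obtain ⟨x, hx⟩ := x
  cases x with
  | nat b' u' h' =>
    simp only [pc, Option.some.injEq, Prod.mk.injEq] at h
    rw [← h.2]; exact hx.1
  | cap b' u' h' =>
    simp only [pc, Option.some.injEq, Prod.mk.injEq] at h
    rw [← h.2]; exact hx.1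
  | pth b' u' j => simp [pc] at h
  | rt => simp [pc] at h

private theorem brd (tok : StTok) (hp : Par N e) (hc : CoreAx N e c) (hs : ChAx N c s)
    {b : Bool} {u : V} {x y : TV N e c s} (hx : pc x.1 = some (b, u))
    (hy : pc y.1 ≠ some (b, u)) (h : (TG N e c s).Adj x y) :
    x.1 = .cap b u (cc N s b u) ∧ y.1 = .pth b u 1 := by
  rw [tok.adj N e c s hp hc hs] at h
  rcases h with ⟨h1, h2⟩ | ⟨h1, h2⟩ | ⟨b', u', h1, h2⟩ | ⟨b', u', h1, h2⟩
  · exfalso
    apply hy
    rw [h2, (tok.ok N e c s hp hc hs _ x.2 h1).2.2, hx]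
  · exfalso
    apply hy
    rw [← hx, h2, (tok.ok N e c s hp hc hs _ y.2 h1).2.2]
  · rw [h1] at hx
    simp only [pc, Option.some.injEq, Prod.mk.injEq] at hx
    obtain ⟨rfl, rfl⟩ := hx
    exact ⟨h1, h2⟩
  · rw [h2] at hx
    simp [pc] at hx

end

/-- Distances in the tree skeleton. -/
theorem pTdist : StForest → StBridge → StTok → StTdist := by
  intro hF hB tok
  have hinn : ∀ {V Q Λ B FB : Type} (N e : ℕ) (c : Core V Q Λ B FB) (s : Ch V Q), Par N e →
    CoreAx N e c → ChAx N c s → ∀ x y : TV N e c s, pc x.1 = pc y.1 →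
    ∀ d : ℕ, (TG N e c s).edist x y ≤ (d : ℕ∞) ↔ ∃ i j, i ≤ tlev N c x.1 ∧ j ≤ tlev N c y.1 ∧
      i + j ≤ d ∧ (tpar N e c s)^[i] x.1 = (tpar N e c s)^[j] y.1 := by
    intro V Q Λ B FB N e c s hp hc hs x y hxy d
    classical
    refine inn_aux hF tok hp hc hs (pc x.1) ?_ x y rfl hxy.symm d
    generalize hox : pc x.1 = o
    intro x' y'
    cases o with
    | none =>
      -- the star
      have hpth : ∀ z : TV N e c s, ∀ p, pc z.1 = some p →
          okT N e c s (.pth p.1 p.2 1 : TH V Q (Kd N Λ B FB)) := by
        intro z p hz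
        refine ⟨?_, le_rfl, ?_⟩
        · exact rpu (b := p.1) (u := p.2) (x := z) hz
        · obtain ⟨h1, h2⟩ := hp
          omega
      let f : TV N e c s → {x : TV N e c s | pc x.1 = none} := fun z =>
        if h : pc z.1 = none then ⟨z, h⟩ else
          ⟨⟨.pth ((pc z.1).get (Option.isSome_iff_ne_none.2 h)).1
            ((pc z.1).get (Option.isSome_iff_ne_none.2 h)).2 1,
            hpth z ((pc z.1).get (Option.isSome_iff_ne_none.2 h)) (by simp)⟩, rfl⟩
      have hf1 : ∀ (z : TV N e c s) (h : z ∈ {x : TV N e c s | pc x.1 = none}), f z = ⟨z, h⟩ := by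
        intro z h
        exact dif_pos (c := pc z.1 = none) h
      have hf2 : ∀ z b u, pc z.1 = some (b, u) → (f z).1.1 = .pth b u 1 := by
        intro z b u h
        have h' : ¬ pc z.1 = none := by rw [h]; simp
        simp only [f]
        rw [dif_neg h']
        simp [h]
      refine retr _ _ f (fun z => hf1 z.1 z.2) ?_ x' y'
      intro z z' hzz
      cases hz : pc z.1 with
      | none =>
        cases hz' : pc z'.1 with
        | none =>
          right
          rw [hf1 z hz, hf1 z' hz']
          exact hzz
        | some p =>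
          left
          obtain ⟨h1, h2⟩ := brd tok hp hc hs (b := p.1) (u := p.2) hz' (by rw [hz]; simp) hzz.symm
          rw [hf1 z hz]
          apply Subtype.ext
          apply Subtype.ext
          rw [hf2 z' p.1 p.2 hz']
          exact h2
      | some p =>
        cases hz' : pc z'.1 with
        | none =>
          left
          obtain ⟨h1, h2⟩ := brd tok hp hc hs (b := p.1) (u := p.2) hz (by rw [hz']; simp) hzz
          rw [hf1 z' hz']
          apply Subtype.ext
          apply Subtype.ext
          rw [hf2 z p.1 p.2 hz]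
          exact h2.symm
        | some p' =>
          left
          by_cases hpp : p' = p
          · apply Subtype.ext
            apply Subtype.ext
            rw [hf2 z p.1 p.2 hz, hf2 z' p'.1 p'.2 hz', hpp]
          · exfalso
            obtain ⟨h1, h2⟩ := brd tok hp hc hs (b := p.1) (u := p.2) hz
              (by rw [hz']; intro h; apply hpp; exact Option.some.inj h) hzz
            rw [h2] at hz'
            simp [pc] at hz'
    | some p =>
      obtain ⟨b, u⟩ := p
      have hru : s.rp u = u := rpu (x := x) hox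
      let a : TV N e c s := ⟨.cap b u (cc N s b u), tok.okc N e c s hp hc hs b u hru⟩
      let a' : TV N e c s := ⟨.pth b u 1, ⟨hru, le_rfl, by obtain ⟨h1, h2⟩ := hp; omega⟩⟩
      refine (hB (TG N e c s) {x : TV N e c s | pc x.1 = some (b, u)} a a' rfl ?_ ?_ ?_).1 x' y'
      · intro h
        change pc a'.1 = some (b, u) at h
        simp [a', pc] at h
      · rw [tok.adj N e c s hp hc hs]
        right; right; left
        exact ⟨b, u, rfl, rfl⟩
      · intro z hz z' hz' hzz
        obtain ⟨h1, h2⟩ := brd tok hp hc hs (b := b) (u := u) hz hz' hzz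
        exact ⟨Subtype.ext h1, Subtype.ext h2⟩
  refine ⟨@hinn, ?_, ?_, ?_⟩
  · -- out
    intro V Q Λ B FB N e c s hp hc hs x y a a' b u hx hy ha ha'
    refine (hB (TG N e c s) {x : TV N e c s | pc x.1 = some (b, u)} a a' ?_ ?_ ?_ ?_).2 x hx y hy
    · change pc a.1 = some (b, u)
      rw [ha]; rfl
    · intro h
      change pc a'.1 = some (b, u) at h
      rw [ha'] at h
      simp [pc] at h
    · rw [tok.adj N e c s hp hc hs]
      right; right; left
      exact ⟨b, u, ha, ha'⟩
    · intro z hz z' hz' hzz
      obtain ⟨h1, h2⟩ := brd tok hp hc hs (b := b) (u := u) hz hz' hzz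
      exact ⟨Subtype.ext (h1.trans ha.symm), Subtype.ext (h2.trans ha'.symm)⟩
  · -- near
    intro V Q Λ B FB N e c s hp hc hs x y b u hx hxy
    classical
    have hN : 1 ≤ N := by obtain ⟨h1, h2⟩ := hp; omega
    let h : TV N e c s → ℕ := fun z => if pc z.1 = some (b, u) then 0 else
      match z.1 with
      | .pth b' u' j => if b' = b ∧ u' = u then j else 2 * N + 1
      | _ => 2 * N + 1
    have hA : ∀ z, pc z.1 = some (b, u) → h z = 0 := by
      intro z hz
      simp only [h]
      rw [if_pos hz]
    have hP : ∀ z j, z.1 = .pth b u j → h z = j := by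
      intro z j hz
      simp only [h]
      rw [hz]
      simp [pc]
    have hO : ∀ z, pc z.1 ≠ some (b, u) → (∀ j, z.1 ≠ .pth b u j) → h z = 2 * N + 1 := by
      intro z hz hz'
      simp only [h]
      rw [if_neg hz]
      split
      · rename_i b' u' j hj
        rw [if_neg]
        rintro ⟨rfl, rfl⟩
        exact hz' j hj
      · rfl
    have hle : ∀ z, h z ≤ 2 * N + 1 := by
      intro z
      by_cases h1 : pc z.1 = some (b, u)
      · rw [hA z h1]; omega
      · by_cases h2 : ∃ j, z.1 = .pth b u j
        · obtain ⟨j, hj⟩ := h2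
          rw [hP z j hj]
          have h3 := z.2
          rw [hj] at h3
          have h4 : j ≤ 2 * N := h3.2.2
          omega
        · push Not at h2
          rw [hO z h1 h2]
    have hL : ∀ z z', (TG N e c s).Adj z z' → h z' ≤ h z + 1 := by
      intro z z' hzz
      by_cases h1 : pc z.1 = some (b, u)
      · by_cases h2 : pc z'.1 = some (b, u)
        · rw [hA z' h2]; omega
        · obtain ⟨h3, h4⟩ := brd tok hp hc hs h1 h2 hzz
          rw [hP z' 1 h4]; omega
      · by_cases h2 : pc z'.1 = some (b, u)
        · rw [hA z' h2]; omega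
        · by_cases h3 : ∃ j, z.1 = .pth b u j
          · obtain ⟨j, hj⟩ := h3
            rw [hP z j hj]
            rw [tok.adj N e c s hp hc hs] at hzz
            rcases hzz with ⟨h4, h5⟩ | ⟨h4, h5⟩ | ⟨b', u', h4, h5⟩ | ⟨b', u', h4, h5⟩
            · rw [hj] at h5
              simp only [tpar] at h5
              by_cases hj2 : j = 2 * N
              · have := hle z'
                omega
              · rw [if_neg hj2] at h5
                rw [hP z' _ h5]
            · -- z' is a child of z
              rw [hj] at h5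
              cases hz' : z'.1 with
              | nat b' u' k =>
                rw [hz'] at h5
                simp [tpar] at h5
              | cap b' u' k =>
                rw [hz'] at h5
                simp [tpar] at h5
              | pth b' u' k =>
                rw [hz'] at h5
                simp only [tpar] at h5
                by_cases hk : k = 2 * N
                · rw [if_pos hk] at h5
                  simp at h5
                · rw [if_neg hk] at h5
                  simp only [TH.pth.injEq] at h5
                  obtain ⟨rfl, rfl, h6⟩ := h5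
                  rw [hP z' k hz']
                  omega
              | rt =>
                rw [hz'] at h5
                simp [tpar] at h5
            · rw [hj] at h4
              simp at h4
            · rw [h4] at h2
              rw [hj] at h5
              simp only [TH.pth.injEq] at h5
              obtain ⟨rfl, rfl, _⟩ := h5
              exact absurd rfl h2
          · push Not at h3
            rw [hO z h1 h3]
            have := hle z'
            omega
    have h1 := lip _ h hL (2 * N) hxy
    rw [hA x hx] at h1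
    by_cases h2 : pc y.1 = some (b, u)
    · exact Or.inl h2
    · right
      by_contra h3
      push Not at h3
      rw [hO y h2 h3] at h1
      omega
  · -- root
    intro V Q Λ B FB N e c s hp hc hs x y b u hx hy
    have hpx : pc x.1 = some (b, u) := by rw [hx]; rfl
    have hlx : tlev N c x.1 = 0 := by
      rw [hx]
      simp [tlev, lev, GH.own, GH.ht]
    have key := hinn N e c s hp hc hs x y (hpx.trans hy.symm)
    have hup : (TG N e c s).edist x y ≤ ((tlev N c y.1 : ℕ) : ℕ∞) := by
      rw [key]
      refine ⟨0, tlev N c y.1, Nat.zero_le _, le_rfl, by omega, ?_⟩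
      obtain ⟨h1, h2, h3⟩ := it tok hp hc hs y.2 (tlev N c y.1) le_rfl
      rw [hy] at h3
      change x.1 = _
      rcases tok.zero N e c s hp hc hs _ h1 (by omega) with h4 | ⟨b', u', _, h4⟩
      · rw [h4] at h3
        simp [pc] at h3
      · rw [h4] at h3 ⊢
        simp only [pc, Option.some.injEq, Prod.mk.injEq] at h3
        rw [hx, h3.1, h3.2]
    have hlo : ∀ d : ℕ, (TG N e c s).edist x y ≤ (d : ℕ∞) → tlev N c y.1 ≤ d := by
      intro d hd
      rw [key] at hd
      obtain ⟨i, j, hi, hj, hij, h⟩ := hd
      rw [hlx] at hi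
      obtain rfl : i = 0 := by omega
      obtain ⟨h1, h2, h3⟩ := it tok hp hc hs y.2 j hj
      rw [← h] at h2
      change tlev N c x.1 + j = _ at h2
      omega
    apply le_antisymm hup
    by_cases htop : (TG N e c s).edist x y = ⊤
    · rw [htop]; exact le_top
    · obtain ⟨n, hn⟩ := WithTop.ne_top_iff_exists.1 htop
      have h1 := hlo n hn.symm.le
      rw [← hn]
      exact Nat.cast_le.2 h1

end Pool.Agent.Helper51.LD
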